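import Pool.Agent.Helper62.XiB.Kern
import Pool.Agent.Helper67.XiC
import Pool.Agent.Helper67.XiTail
import Pool.Agent.Helper67.XiEng4

/-! Exact formula for the truncated transform on the imaginary side. -/

open MeasureTheory Set Real Filter Topology
open scoped Interval

namespace Pool.Agent.Helper62.XiB

open Pool.Agent.Helper67.Xi

theorem K_split {x : ℝ} (hx : 0 < x) {α : ℂ} (hα : 0 < α.re) (T : ℝ) :
    ∫ r in (-T)..0, K x α r = (∫ r, K x α r) - (∫ r in Iic (-T), K x α r) - q x α := by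
  have hi := K_integrable hx hα
  have h1 := intervalIntegral.integral_Iic_sub_Iic (a := -T) (b := 0)
    hi.integrableOn (hi.integrableOn (s := Iic 0))
  have h2 := intervalIntegral.integral_Iic_add_Ioi (b := (0 : ℝ)) hi.integrableOn hi.integrableOn
  rw [q, ← h1, ← h2]
  ring

theorem IY_eq (R : ℝ) (α : ℂ) : IY R π (4 * α) =
    (1 / 4) * Complex.exp (4 * R * α - (π * exp (4 * R) : ℝ)) *
      ∫ r in (-(4 * R))..0, K (π * exp (4 * R)) α r := by
  have h1 := intervalIntegral.integral_comp_mul_sub (a := 0) (b := R)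
    (fun r => K (π * exp (4 * R)) α r) (c := 4) (by norm_num) (4 * R)
  have h2 : (4 : ℝ) * 0 - 4 * R = -(4 * R) := by ring
  have h3 : (4 : ℝ) * R - 4 * R = 0 := by ring
  rw [h2, h3] at h1
  have h4 : ∫ r in (-(4 * R))..0, K (π * exp (4 * R)) α r =
      4 * ∫ t in (0 : ℝ)..R, K (π * exp (4 * R)) α (4 * t - 4 * R) := by
    rw [h1, Complex.real_smul]
    push_cast
    ring
  rw [h4, IY, ← intervalIntegral.integral_const_mul, ← intervalIntegral.integral_const_mul]
  congr 1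
  ext t
  rw [K]
  have h5 : Complex.exp (((4 * t - 4 * R : ℝ) : ℂ)) = Complex.exp (4 * t) * Complex.exp (-(4 * R)) := by
    rw [← Complex.exp_add]; congr 1; push_cast; ring
  have h6 : Complex.exp (4 * (R : ℂ)) * Complex.exp (-(4 * (R : ℂ))) = 1 := by
    rw [← Complex.exp_add]; simp
  rw [h5]
  have h7 : (1 / 4 : ℂ) * Complex.exp (4 * R * α - (π * exp (4 * R) : ℝ)) *
      (4 * Complex.exp (α * ((4 * t - 4 * R : ℝ) : ℂ) - ((π * exp (4 * R) : ℝ) : ℂ) *
        (Complex.exp (4 * t) * Complex.exp (-(4 * R)) - 1))) =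
      Complex.exp (4 * R * α - (π * exp (4 * R) : ℝ)) *
      Complex.exp (α * ((4 * t - 4 * R : ℝ) : ℂ) - ((π * exp (4 * R) : ℝ) : ℂ) *
        (Complex.exp (4 * t) * Complex.exp (-(4 * R)) - 1)) := by ring
  rw [h7, ← Complex.exp_add]
  congr 1
  push_cast
  linear_combination ((π : ℂ) * Complex.exp (4 * t)) * h6

theorem integral_trm0 (R : ℝ) (α : ℂ) :
    ∫ t in (0 : ℝ)..R, (trm 0 t : ℂ) * Complex.exp ((4 * α - 5) * t) =
      (π / 2) * ((4 * α - 6) * IY R π (4 * α) -
        Complex.exp (4 * R * α - (π * exp (4 * R) : ℝ)) + Complex.exp (-π)) := by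
  have hp := IY_parts R π (4 * α)
  have h1 : ∫ t in (0 : ℝ)..R, (trm 0 t : ℂ) * Complex.exp ((4 * α - 5) * t) =
      2 * π ^ 2 * IY R π (4 * α + 4) - 3 * π * IY R π (4 * α) := by
    rw [IY, IY, ← intervalIntegral.integral_const_mul, ← intervalIntegral.integral_const_mul,
      ← intervalIntegral.integral_sub]
    · congr 1
      ext t
      have e1 : Complex.exp ((4 * α + 4) * t - π * Complex.exp (4 * t)) =
          Complex.exp (9 * t) * Complex.exp (-(π * Complex.exp (4 * t))) *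
            Complex.exp ((4 * α - 5) * t) := by
        rw [← Complex.exp_add, ← Complex.exp_add]; congr 1; ring
      have e2 : Complex.exp (4 * α * t - π * Complex.exp (4 * t)) =
          Complex.exp (5 * t) * Complex.exp (-(π * Complex.exp (4 * t))) *
            Complex.exp ((4 * α - 5) * t) := by
        rw [← Complex.exp_add, ← Complex.exp_add]; congr 1; ring
      rw [e1, e2, trm]
      push_cast
      simp only [zero_add, one_pow, mul_one]
      ring
    · apply Continuous.intervalIntegrable; fun_prop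
    · apply Continuous.intervalIntegrable; fun_prop
  rw [h1]
  have h2 : Complex.exp (4 * α * R - π * Complex.exp (4 * R)) =
      Complex.exp (4 * R * α - (π * exp (4 * R) : ℝ)) := by
    congr 1; push_cast; ring
  rw [h2] at hp
  linear_combination (-(π : ℂ) / 2) * hp

/-- the factor `u` -/
noncomputable def uu (R : ℝ) (α : ℂ) : ℂ :=
  (π / 2) * Complex.exp (4 * R * α - (π * exp (4 * R) : ℝ))

theorem uu_ne (R : ℝ) (α : ℂ) : uu R α ≠ 0 := by
  unfold uu
  apply mul_ne_zero _ (Complex.exp_ne_zero _)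
  have := pi_ne_zero
  have : (π : ℂ) ≠ 0 := by exact_mod_cast this
  exact div_ne_zero this two_ne_zero

theorem norm_uu (R : ℝ) (α : ℂ) : ‖uu R α‖ = π / 2 * exp (4 * R * α.re - π * exp (4 * R)) := by
  rw [uu, norm_mul, Complex.norm_exp]
  congr 1
  · rw [norm_div, Complex.norm_real, Real.norm_eq_abs, abs_of_pos pi_pos]; simp
  · congr 1
    have h : (4 * (R : ℂ) * α) = ((4 * R : ℝ) : ℂ) * α := by push_cast; ring
    rw [h, Complex.sub_re, Complex.re_ofReal_mul, Complex.ofReal_re]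

/-- the error term -/
noncomputable def EE (R : ℝ) (α : ℂ) : ℂ :=
  ((π / 2) * Complex.exp (-π) + (∫ t in (0 : ℝ)..R, (Psi t : ℂ) * Complex.exp ((4 * α - 5) * t)) +
    (∫ t in (0 : ℝ)..R, (Phi t : ℂ) * Complex.exp (-((4 * α - 5) * t)))) / uu R α -
  (α - 3 / 2) * ∫ r in Iic (-(4 * R)), K (π * exp (4 * R)) α r

theorem two_ff {R : ℝ} (hR : 0 ≤ R) {α : ℂ} (hα : 0 < α.re) :
    2 * ff R (4 * α - 5) / uu R α = (α - 3 / 2) * ((∫ r, K (π * exp (4 * R)) α r) -
      q (π * exp (4 * R)) α) - 1 + EE R α := by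
  have hx : 0 < π * exp (4 * R) := by have := pi_pos; positivity
  have h1 : 2 * ff R (4 * α - 5) =
      (∫ t in (0 : ℝ)..R, (Phi t : ℂ) * Complex.exp ((4 * α - 5) * t)) +
      (∫ t in (0 : ℝ)..R, (Phi t : ℂ) * Complex.exp (-((4 * α - 5) * t))) := by
    rw [ff, ← intervalIntegral.integral_const_mul, ← intervalIntegral.integral_add]
    · congr 1
      ext t
      rw [Complex.cosh]; ring
    · apply ContinuousOn.intervalIntegrable
      rw [uIcc_of_le hR]
      exact Phi_cont_c.mul (by fun_prop)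
    · apply ContinuousOn.intervalIntegrable
      rw [uIcc_of_le hR]
      exact Phi_cont_c.mul (by fun_prop)
  have h2 : (∫ t in (0 : ℝ)..R, (Phi t : ℂ) * Complex.exp ((4 * α - 5) * t)) =
      (∫ t in (0 : ℝ)..R, (trm 0 t : ℂ) * Complex.exp ((4 * α - 5) * t)) +
      (∫ t in (0 : ℝ)..R, (Psi t : ℂ) * Complex.exp ((4 * α - 5) * t)) := by
    rw [← intervalIntegral.integral_add]
    · apply intervalIntegral.integral_congr
      intro t ht
      rw [uIcc_of_le hR] at ht
      simp only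
      rw [Phi_split ht.1]
      push_cast; ring
    · apply Continuous.intervalIntegrable
      have := trm_continuous 0
      fun_prop
    · apply ContinuousOn.intervalIntegrable
      rw [uIcc_of_le hR]
      exact (Complex.continuous_ofReal.comp_continuousOn (Psi_continuousOn R)).mul (by fun_prop)
  have hu := uu_ne R α
  rw [h1, h2, integral_trm0, IY_eq, K_split hx hα, EE, div_eq_iff hu]
  have hu2 : uu R α = (π / 2) * Complex.exp (4 * R * α - (π * exp (4 * R) : ℝ)) := rfl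
  generalize uu R α = u at *
  generalize Complex.exp (4 * R * α - (π * exp (4 * R) : ℝ)) = E at *
  generalize (∫ r, K (π * exp (4 * R)) α r) = G at *
  generalize (∫ r in Iic (-(4 * R)), K (π * exp (4 * R)) α r) = I at *
  generalize (∫ t in (0 : ℝ)..R, (Psi t : ℂ) * Complex.exp ((4 * α - 5) * t)) = P at *
  generalize (∫ t in (0 : ℝ)..R, (Phi t : ℂ) * Complex.exp (-((4 * α - 5) * t))) = F at *
  generalize q (π * exp (4 * R)) α = Q at *
  have key : ((π / 2) * Complex.exp (-π) + P + F) / u * u = (π / 2) * Complex.exp (-π) + P + F :=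
    div_mul_cancel₀ _ hu
  linear_combination (-((α - 3 / 2) * (G - I - Q) - 1)) * hu2 - key

theorem Psi_bound {t : ℝ} (ht : 0 ≤ t) :
    Psi t ≤ 340 * (exp (9 * t) * exp (-(4 * π * exp (4 * t)))) := by
  have hp := pi_pos
  have h1 := one_le_exp4 ht
  set E := exp (4 * t) with hE
  have hpi4 : exp (-(4 * π)) ≤ 1 / 100 := by
    have h2 : exp (-(4 * π)) = exp (-π) ^ 4 := by rw [← exp_nat_mul]; congr 1; push_cast; ring
    rw [h2]
    calc exp (-π) ^ 4 ≤ (433 / 10000 : ℝ) ^ 4 :=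
          pow_le_pow_left₀ (exp_pos _).le exp_neg_pi_le _
      _ ≤ _ := by norm_num
  have hb : ∀ n : ℕ, trm (n + 1) t ≤
      (exp (9 * t) * exp (-(4 * π * E))) * (2 * π ^ 2 * 16) * (6 / 100) ^ n := by
    intro n
    have hn : (0 : ℝ) ≤ n := Nat.cast_nonneg n
    have a1 : trm (n + 1) t ≤ 2 * π ^ 2 * ((n : ℝ) + 2) ^ 4 * exp (9 * t) *
        exp (-(π * ((n : ℝ) + 2) ^ 2 * E)) := by
      rw [trm]
      push_cast
      have e1 : ((n : ℝ) + 1 + 1) = n + 2 := by ring
      rw [e1]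
      apply mul_le_mul_of_nonneg_right _ (exp_pos _).le
      have : 0 ≤ 3 * π * ((n : ℝ) + 2) ^ 2 * exp (5 * t) := by positivity
      linarith
    have a2 : exp (-(π * ((n : ℝ) + 2) ^ 2 * E)) ≤ exp (-(4 * π * E)) * (1 / 100) ^ n := by
      have b1 : exp (-(π * ((n : ℝ) + 2) ^ 2 * E)) ≤ exp (-(4 * π * E) + n * (-(4 * π))) := by
        apply exp_le_exp.2
        have b2 : 4 + 4 * (n : ℝ) ≤ ((n : ℝ) + 2) ^ 2 := by nlinarith
        have b3 : 4 * π * E + n * (4 * π) ≤ π * ((n : ℝ) + 2) ^ 2 * E := by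
          have b4 : 4 * E + 4 * n ≤ ((n : ℝ) + 2) ^ 2 * E := by nlinarith
          nlinarith
        linarith
      refine b1.trans ?_
      rw [exp_add, exp_nat_mul]
      gcongr
    have a3 : ((n : ℝ) + 2) ^ 4 ≤ 16 * 6 ^ n := by
      clear a1 a2
      induction n with
      | zero => norm_num
      | succ m ih =>
        have hm : (0 : ℝ) ≤ m := Nat.cast_nonneg m
        have c1 := ih hm
        have c2 : (((m + 1 : ℕ) : ℝ) + 2) ^ 2 ≤ (9 / 4) * ((m : ℝ) + 2) ^ 2 := by
          push_cast; nlinarith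
        have c3 : (((m + 1 : ℕ) : ℝ) + 2) ^ 4 ≤ 6 * ((m : ℝ) + 2) ^ 4 := by
          have c4 : 0 ≤ (((m + 1 : ℕ) : ℝ) + 2) ^ 2 := by positivity
          have c5 : 0 ≤ ((m : ℝ) + 2) ^ 2 := by positivity
          nlinarith
        have c6 : (6 : ℝ) ^ (m + 1) = 6 ^ m * 6 := pow_succ _ _
        linarith
    calc trm (n + 1) t ≤ 2 * π ^ 2 * (16 * 6 ^ n) * exp (9 * t) *
        (exp (-(4 * π * E)) * (1 / 100) ^ n) := by
          refine a1.trans ?_
          gcongr
      _ = (exp (9 * t) * exp (-(4 * π * E))) * (2 * π ^ 2 * 16) * (6 * (1 / 100)) ^ n := by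
        rw [mul_pow]; ring
      _ = _ := by norm_num
  have hs : Summable (fun n : ℕ => (exp (9 * t) * exp (-(4 * π * E))) * (2 * π ^ 2 * 16) *
      (6 / 100 : ℝ) ^ n) :=
    (summable_geometric_of_lt_one (by norm_num) (by norm_num)).mul_left _
  have h2 := (summable_trm1 ht).tsum_le_tsum hb hs
  rw [tsum_mul_left, tsum_geometric_of_lt_one (by norm_num) (by norm_num)] at h2
  rw [Psi]
  refine h2.trans ?_
  have h3 : 2 * π ^ 2 * 16 * (1 - 6 / 100)⁻¹ ≤ 337 := by
    have := pi_lt_d4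
    have hh : π ^ 2 ≤ 9.8697 := by nlinarith
    norm_num
    linarith
  have h4 : 0 < exp (9 * t) * exp (-(4 * π * E)) := by positivity
  nlinarith

theorem exp_471 : exp (-(471 / 100 : ℝ)) ≤ 1 / 100 := by
  rw [exp_neg, inv_le_comm₀ (exp_pos _) (by norm_num)]
  have h1 : exp (471 / 100 : ℝ) = exp 1 ^ 4 * exp (71 / 100) := by
    rw [← exp_nat_mul, ← exp_add]; norm_num
  have h2 := exp_one_gt_d9
  have h3 := quadratic_le_exp_of_nonneg (x := 71 / 100) (by norm_num)
  rw [h1]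
  calc (1 / 100 : ℝ)⁻¹ ≤ 2.7182818283 ^ 4 * (1 + 71 / 100 + (71 / 100) ^ 2 / 2) := by norm_num
    _ ≤ _ := by gcongr

theorem exp_1679 : exp (-(1679 / 100 : ℝ)) ≤ 54 / 10 ^ 9 := by
  rw [exp_neg, inv_le_comm₀ (exp_pos _) (by norm_num)]
  have h1 : exp (1679 / 100 : ℝ) = exp 1 ^ 16 * exp (79 / 100) := by
    rw [← exp_nat_mul, ← exp_add]; norm_num
  have h2 := exp_one_gt_d9
  have h3 := quadratic_le_exp_of_nonneg (x := 79 / 100) (by norm_num)
  rw [h1]
  calc (54 / 10 ^ 9 : ℝ)⁻¹ ≤ 2.7182818283 ^ 16 * (1 + 79 / 100 + (79 / 100) ^ 2 / 2) := by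
        norm_num
    _ ≤ _ := by gcongr

theorem fourR {R : ℝ} (hR : 10 ≤ exp (4 * R)) : 23 / 10 ≤ 4 * R := by
  have h1 : exp (23 / 10 : ℝ) ≤ 10 := by
    have h2 : exp (23 / 10 : ℝ) ^ 10 = exp 1 ^ 23 := by
      rw [← exp_nat_mul, ← exp_nat_mul]; norm_num
    have h3 := exp_one_lt_d9
    have h4 : exp (23 / 10 : ℝ) ^ 10 ≤ 10 ^ 10 := by
      rw [h2]
      calc exp 1 ^ 23 ≤ 2.7182818286 ^ 23 := by gcongr
        _ ≤ _ := by norm_num
    exact le_of_pow_le_pow_left₀ (by norm_num) (by norm_num) h4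
  exact exp_le_exp.1 (h1.trans hR)

theorem tail_num {R : ℝ} (hR : 10 ≤ exp (4 * R)) :
    R * (340 * exp (4 * R)) * exp (-(535 / 1000 * (π * exp (4 * R)))) * (2 / π) ≤ 3 / 10 ^ 4 := by
  have h4R := fourR hR
  have hp := pi_gt_d2
  have h1 : 4 * R ≤ exp (4 * R) := by linarith [add_one_le_exp (4 * R)]
  set N := exp (4 * R) with hN
  have hN0 : 0 < N := by linarith
  have h2 : N / 10 ≤ exp (N / 10 - 1) := by linarith [add_one_le_exp (N / 10 - 1)]
  have h3 : N ^ 2 ≤ 100 * exp (2 / 10 * N - 2) := by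
    have e1 : exp (2 / 10 * N - 2) = exp (N / 10 - 1) ^ 2 := by
      rw [← exp_nat_mul]; congr 1; push_cast; ring
    rw [e1]
    have e2 : (N / 10) ^ 2 ≤ exp (N / 10 - 1) ^ 2 :=
      pow_le_pow_left₀ (by positivity) h2 _
    nlinarith
  have h5 : exp (2 / 10 * N - 2) * exp (-(535 / 1000 * (π * N))) ≤ exp (-(1679 / 100)) := by
    rw [← exp_add]
    apply exp_le_exp.2
    nlinarith
  have h6 : 2 / π ≤ 2 / 3.14 := by
    apply div_le_div_of_nonneg_left (by norm_num) (by norm_num) hp.le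
  have h7 := exp_1679
  have hE : 0 < exp (-(535 / 1000 * (π * N))) := exp_pos _
  calc R * (340 * N) * exp (-(535 / 1000 * (π * N))) * (2 / π)
      ≤ (N / 4) * (340 * N) * exp (-(535 / 1000 * (π * N))) * (2 / 3.14) := by
        gcongr
        linarith
    _ = 85 * (2 / 3.14) * (N ^ 2 * exp (-(535 / 1000 * (π * N)))) := by ring
    _ ≤ 85 * (2 / 3.14) * ((100 * exp (2 / 10 * N - 2)) * exp (-(535 / 1000 * (π * N)))) := by
        gcongr
    _ = 85 * (2 / 3.14) * 100 * (exp (2 / 10 * N - 2) * exp (-(535 / 1000 * (π * N)))) := by ring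
    _ ≤ 85 * (2 / 3.14) * 100 * (54 / 10 ^ 9) := by
        gcongr
        exact h5.trans h7
    _ ≤ _ := by norm_num

theorem Phi_le_one {t : ℝ} (ht : 0 ≤ t) : Phi t ≤ 1 := by
  rw [Phi_split ht]
  have h1 := Psi_le ht
  have h2 : trm 0 t ≤ 2 * π ^ 2 * exp (-π) := by
    rw [trm]
    have e1 : (2 * π ^ 2 * (((0 : ℕ) : ℝ) + 1) ^ 4 * exp (9 * t) -
        3 * π * (((0 : ℕ) : ℝ) + 1) ^ 2 * exp (5 * t)) ≤ 2 * π ^ 2 * exp (9 * t) := by
      have : 0 ≤ 3 * π * (((0 : ℕ) : ℝ) + 1) ^ 2 * exp (5 * t) := by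
        have := pi_pos
        positivity
      push_cast at this ⊢
      simp only [zero_add, one_pow, mul_one] at this ⊢
      linarith
    have e2 : exp (-(π * (((0 : ℕ) : ℝ) + 1) ^ 2 * exp (4 * t))) = exp (-(π * exp (4 * t))) := by
      congr 1; push_cast; ring
    rw [e2]
    have e3 : exp (9 * t) * exp (-(π * exp (4 * t))) ≤ exp (-π) := by
      rw [← exp_add]
      apply exp_le_exp.2
      have h3 := add_one_le_exp (4 * t)
      have h4 := pi_gt_three
      nlinarith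
    calc _ ≤ (2 * π ^ 2 * exp (9 * t)) * exp (-(π * exp (4 * t))) := by gcongr
      _ = 2 * π ^ 2 * (exp (9 * t) * exp (-(π * exp (4 * t)))) := by ring
      _ ≤ _ := by
        have := pi_pos
        gcongr
  have h3 : 2 * π ^ 2 * exp (-π) ≤ 2 * (9.8697) * (433 / 10000) := by
    have := pi_lt_d4
    have hp := pi_pos
    have hh : π ^ 2 ≤ 9.8697 := by nlinarith
    have := exp_neg_pi_le
    have := exp_pos (-π)
    gcongr
  norm_num at h3 h1 ⊢
  linarith

theorem F_bound {R : ℝ} (hR : 0 ≤ R) {α : ℂ} (hα : 15 ≤ α.re) :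
    ‖∫ t in (0 : ℝ)..R, (Phi t : ℂ) * Complex.exp (-((4 * α - 5) * t))‖ ≤ 1 / 50 := by
  set m := 4 * α.re - 5 with hm
  have hm0 : 0 < m := by linarith
  have h1 : ‖∫ t in (0 : ℝ)..R, (Phi t : ℂ) * Complex.exp (-((4 * α - 5) * t))‖ ≤
      ∫ t in (0 : ℝ)..R, exp (-(m * t)) := by
    apply intervalIntegral.norm_integral_le_of_norm_le hR
    · apply Eventually.of_forall
      intro t ht
      rw [norm_mul, Complex.norm_real, Real.norm_eq_abs, abs_of_pos (Phi_pos ht.1.le),
        Complex.norm_exp]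
      have e1 : (-((4 * α - 5) * (t : ℂ))).re = -(m * t) := by
        rw [Complex.neg_re, Complex.re_mul_ofReal]
        simp [hm]
      rw [e1]
      calc Phi t * exp (-(m * t)) ≤ 1 * exp (-(m * t)) := by
            have := Phi_le_one ht.1.le
            gcongr
        _ = _ := one_mul _
    · apply Continuous.intervalIntegrable; fun_prop
  have h2 : ∫ t in (0 : ℝ)..R, exp (-(m * t)) = (1 - exp (-(m * R))) / m := by
    have hd : ∀ t : ℝ, HasDerivAt (fun t : ℝ => -exp (-(m * t)) / m) (exp (-(m * t))) t := by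
      intro t
      have a1 : HasDerivAt (fun t : ℝ => -(m * t)) (-m) t := by
        simpa [neg_mul] using (hasDerivAt_id t).const_mul (-m)
      refine (a1.exp.neg.div_const m).congr_deriv ?_
      field_simp
    rw [intervalIntegral.integral_eq_sub_of_hasDerivAt (fun t _ => hd t)]
    · simp only [mul_zero, neg_zero, exp_zero]; ring
    · apply Continuous.intervalIntegrable; fun_prop
  refine h1.trans ?_
  rw [h2, div_le_div_iff₀ hm0 (by norm_num)]
  have := exp_pos (-(m * R))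
  linarith

theorem P_bound {R : ℝ} (hR : 0 ≤ R) {α : ℂ} (hα : π * exp (4 * R) / 2 ≤ α.re) :
    ‖∫ t in (0 : ℝ)..R, (Psi t : ℂ) * Complex.exp ((4 * α - 5) * t)‖ ≤
      R * (340 * exp (4 * R)) * exp (-(535 / 1000 * (π * exp (4 * R)))) *
        exp (4 * R * α.re - π * exp (4 * R)) := by
  have hp := pi_pos
  set x := π * exp (4 * R) with hx
  have hx0 : 0 < x := by positivity
  have h1 : ∀ t ∈ Ι (0 : ℝ) R, ‖(Psi t : ℂ) * Complex.exp ((4 * α - 5) * t)‖ ≤
      (340 * exp (4 * R)) * exp (-(535 / 1000 * x)) * exp (4 * R * α.re - x) := by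
    intro t ht
    rw [uIoc_of_le hR] at ht
    have ht0 := ht.1.le
    rw [norm_mul, Complex.norm_real, Real.norm_eq_abs, abs_of_nonneg (Psi_nonneg ht0),
      Complex.norm_exp]
    have e1 : ((4 * α - 5) * (t : ℂ)).re = (4 * α.re - 5) * t := by
      rw [Complex.re_mul_ofReal]
      simp
    rw [e1]
    have e2 : exp (9 * t) * exp (-(4 * π * exp (4 * t))) * exp ((4 * α.re - 5) * t) =
        exp (4 * t) * exp (4 * α.re * t - 4 * π * exp (4 * t)) := by
      rw [← exp_add, ← exp_add, ← exp_add]; congr 1; ring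
    have hlog : (2.07 : ℝ) ≤ Real.log 8 := by
      have : Real.log 8 = 3 * Real.log 2 := by
        rw [show (8 : ℝ) = 2 ^ 3 by norm_num, Real.log_pow]; push_cast; ring
      rw [this]
      have := Real.log_two_gt_d9
      norm_num at this ⊢
      linarith
    have h3 : (1 + Real.log 8 - 4 * (R - t)) ≤ 8 * exp (-(4 * (R - t))) := by
      have h4 := add_one_le_exp (Real.log 8 - 4 * (R - t))
      have h5 : exp (Real.log 8 - 4 * (R - t)) = 8 * exp (-(4 * (R - t))) := by
        rw [sub_eq_add_neg, exp_add, exp_log (by norm_num)]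
      rw [h5] at h4
      linarith
    have h6 : π * exp (4 * t) = x * exp (-(4 * (R - t))) := by
      rw [hx, mul_assoc, ← exp_add]; congr 2; ring
    have h7 : 4 * α.re * t - 4 * π * exp (4 * t) ≤ -(535 / 1000 * x) + (4 * R * α.re - x) := by
      have h8 : 4 * π * exp (4 * t) = 4 * x * exp (-(4 * (R - t))) := by linarith
      have h9 : 4 * α.re * (R - t) ≥ 4 * (x / 2) * (R - t) := by
        have : 0 ≤ R - t := by linarith [ht.2]
        nlinarith
      have h10 : 4 * x * exp (-(4 * (R - t))) ≥ (x / 2) * (1 + Real.log 8 - 4 * (R - t)) := by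
        nlinarith
      rw [h8]
      nlinarith
    calc Psi t * exp ((4 * α.re - 5) * t)
        ≤ (340 * (exp (9 * t) * exp (-(4 * π * exp (4 * t))))) * exp ((4 * α.re - 5) * t) := by
          have := Psi_bound ht0
          gcongr
      _ = 340 * (exp (4 * t) * exp (4 * α.re * t - 4 * π * exp (4 * t))) := by
          rw [← e2]; ring
      _ ≤ 340 * (exp (4 * R) * exp (-(535 / 1000 * x) + (4 * R * α.re - x))) := by
          have := ht.2
          gcongr
      _ = _ := by rw [exp_add]; ring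
  have h2 := intervalIntegral.norm_integral_le_of_norm_le_const h1
  rw [sub_zero, abs_of_nonneg hR] at h2
  refine h2.trans (le_of_eq ?_)
  ring

theorem EE_bound {R : ℝ} (hR : 10 ≤ exp (4 * R)) {α : ℂ} (h1 : π * exp (4 * R) / 2 ≤ α.re)
    (h2 : ‖α‖ ≤ π * exp (4 * R)) : ‖EE R α‖ ≤ 22 / 1000 := by
  have h4R := fourR hR
  have hR0 : 0 < R := by linarith
  have hp := pi_gt_d2
  have hp0 := pi_pos
  have hx31 : 31.4 ≤ π * exp (4 * R) := by nlinarith
  have hPn := tail_num hR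
  have hP := P_bound hR0.le h1
  have hF := F_bound hR0.le (α := α) (by linarith)
  have hI := K_left (x := π * exp (4 * R)) (by linarith) (α := α) (by linarith) (4 * R)
  have hu := norm_uu R α
  rw [EE]
  set x := π * exp (4 * R) with hx
  set σ := α.re with hσ
  have hσ0 : 0 < σ := by linarith
  set κ := exp (x - 4 * R * σ) with hκ
  have hκ0 : 0 < κ := exp_pos _
  have hκ1 : κ ≤ 1 / 100 := by
    refine le_trans ?_ exp_471
    apply exp_le_exp.2
    nlinarith
  have hu2 : ‖uu R α‖ * κ = π / 2 := by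
    rw [hu, hκ, mul_assoc, ← exp_add]
    have : 4 * R * σ - x + (x - 4 * R * σ) = 0 := by ring
    rw [this, exp_zero, mul_one]
  have hu0 : 0 < ‖uu R α‖ := norm_pos_iff.2 (uu_ne R α)
  have hinv : ‖uu R α‖⁻¹ = (2 / π) * κ := by
    field_simp
    linarith
  set P := ∫ t in (0 : ℝ)..R, (Psi t : ℂ) * Complex.exp ((4 * α - 5) * t)
  set F := ∫ t in (0 : ℝ)..R, (Phi t : ℂ) * Complex.exp (-((4 * α - 5) * t))
  set I := ∫ r in Iic (-(4 * R)), K x α r
  have a1 : ‖(π / 2 : ℂ) * Complex.exp (-π)‖ ≤ 7 / 100 := by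
    rw [norm_mul, norm_div, Complex.norm_real, Real.norm_eq_abs, abs_of_pos pi_pos,
      Complex.norm_exp]
    have : (-(π : ℂ)).re = -π := by simp
    rw [this]
    simp only [Complex.norm_ofNat]
    have h3 := exp_neg_pi_le
    have h4 := pi_lt_d2
    have h5 := exp_pos (-π)
    nlinarith
  have a2 : ‖P‖ * ‖uu R α‖⁻¹ ≤ 3 / 10 ^ 4 := by
    rw [hinv]
    have e1 : exp (4 * R * σ - x) * κ = 1 := by
      rw [hκ, ← exp_add]
      have : 4 * R * σ - x + (x - 4 * R * σ) = 0 := by ring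
      rw [this, exp_zero]
    calc ‖P‖ * (2 / π * κ) ≤ (R * (340 * exp (4 * R)) * exp (-(535 / 1000 * x)) *
        exp (4 * R * σ - x)) * (2 / π * κ) := by gcongr
      _ = R * (340 * exp (4 * R)) * exp (-(535 / 1000 * x)) * (2 / π) *
          (exp (4 * R * σ - x) * κ) := by ring
      _ ≤ _ := by rw [e1, mul_one]; exact hPn
  have a3 : ‖F‖ * ‖uu R α‖⁻¹ ≤ 2 / 10 ^ 4 := by
    rw [hinv]
    have e1 : 2 / π ≤ 2 / 3 := by
      apply div_le_div_of_nonneg_left (by norm_num) (by norm_num) pi_gt_three.le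
    calc ‖F‖ * (2 / π * κ) ≤ 1 / 50 * (2 / 3 * (1 / 100)) := by gcongr
      _ ≤ _ := by norm_num
  have a4 : ‖(π / 2 : ℂ) * Complex.exp (-π)‖ * ‖uu R α‖⁻¹ ≤ 47 / 10 ^ 5 := by
    rw [hinv]
    have e1 : 2 / π ≤ 2 / 3 := by
      apply div_le_div_of_nonneg_left (by norm_num) (by norm_num) pi_gt_three.le
    calc ‖(π / 2 : ℂ) * Complex.exp (-π)‖ * (2 / π * κ) ≤ 7 / 100 * (2 / 3 * (1 / 100)) := by
          gcongr
      _ ≤ _ := by norm_num
  have a5 : ‖(α - 3 / 2) * I‖ ≤ 2096 / 10 ^ 5 := by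
    rw [norm_mul]
    have e1 : ‖α - 3 / 2‖ ≤ x + 3 / 2 := by
      refine (norm_sub_le _ _).trans ?_
      have : ‖(3 / 2 : ℂ)‖ = 3 / 2 := by
        rw [norm_div]; simp
      rw [this]; linarith
    have e2 : ‖I‖ ≤ κ / σ := by
      refine hI.trans (le_of_eq ?_)
      rw [hκ]; congr 2; ring
    calc ‖α - 3 / 2‖ * ‖I‖ ≤ (x + 3 / 2) * (κ / σ) := by gcongr
      _ = ((x + 3 / 2) / σ) * κ := by ring
      _ ≤ (2.096) * (1 / 100) := by
        have e3 : (x + 3 / 2) / σ ≤ 2.096 := by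
          rw [div_le_iff₀ hσ0]; nlinarith
        gcongr
      _ ≤ _ := by norm_num
  have a6 : ‖((π / 2 : ℂ) * Complex.exp (-π) + P + F) / uu R α‖ ≤ 47 / 10 ^ 5 + 3 / 10 ^ 4 + 2 / 10 ^ 4 := by
    rw [norm_div, div_eq_mul_inv]
    have e1 := norm_add₃_le (a := (π / 2 : ℂ) * Complex.exp (-π)) (b := P) (c := F)
    have e2 : 0 ≤ ‖uu R α‖⁻¹ := by positivity
    calc _ ≤ (‖(π / 2 : ℂ) * Complex.exp (-π)‖ + ‖P‖ + ‖F‖) * ‖uu R α‖⁻¹ := by gcongr
      _ ≤ _ := by linarith
  refine (norm_sub_le _ _).trans ?_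
  refine (add_le_add a6 a5).trans ?_
  norm_num

end Pool.Agent.Helper62.XiB
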