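import Pool.Agent.Helper62.XiB.Rem
import Pool.Agent.Helper62.XiB.Form
import Pool.Agent.Helper67.XiMin

/-! Non-real zeros for large truncation. -/

open Set Real Metric

namespace Pool.Agent.Helper62.XiB

open Pool.Agent.Helper67.Xi

/-- the Stirling statement which is used -/
def Stir : Prop := ∀ s : ℂ, 0 < s.re → 2 ≤ ‖s‖ → ∃ μ : ℂ, Complex.Gamma s =
  (Real.sqrt (2 * Real.pi) : ℂ) * Complex.exp ((s - 1/2) * Complex.log s - s + μ) ∧
  ‖μ‖ ≤ 35 / 100 / ‖s‖

/-- the Gamma argument -/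
noncomputable def al (x e : ℝ) (a : ℂ) : ℂ := x * (1 - a * e)

noncomputable def MM (x e : ℝ) (a : ℂ) : ℂ :=
  a * e * (al x e a - 3 / 2) * (Complex.exp (x - al x e a * Real.log x) * Complex.Gamma (al x e a))

noncomputable def F1 (x e : ℝ) (a : ℂ) : ℂ :=
  MM x e a * Complex.exp (-(PP x e a + Complex.log (WW x e)))

noncomputable def F2 (R e : ℝ) (a : ℂ) : ℂ :=
  MM (π * exp (4 * R)) e a - a * e * (2 * ff R (4 * al (π * exp (4 * R)) e a - 5) /
    uu R (al (π * exp (4 * R)) e a))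

theorem al_re {x e : ℝ} (hx : 0 < x) (h0 : 0 ≤ e) (h1 : e ≤ 1785 / 10000)
    {a : ℂ} (ha : ‖a - cc e‖ ≤ 1 / 2) : 525 / 1000 * x ≤ (al x e a).re := by
  rw [al, Complex.re_ofReal_mul]
  have := va_re h0 h1 ha
  nlinarith

theorem al_norm {x e : ℝ} (hx : 0 < x) (h0 : 0 ≤ e) (h1 : e ≤ 1785 / 10000)
    {a : ℂ} (ha : ‖a - cc e‖ ≤ 1 / 2) : ‖al x e a‖ ≤ x := by
  rw [al, norm_mul, Complex.norm_real, Real.norm_eq_abs, abs_of_pos hx]
  have := va_norm h0 h1 ha
  nlinarith

theorem F1_near (hS : Stir) {x e : ℝ} (hx : 31.4 ≤ x) (hxe : x * e ^ 2 = 1) (h0 : 0 < e)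
    (h1 : e ≤ 1785 / 10000) {a : ℂ} (ha : ‖a - cc e‖ ≤ 1 / 2) : ‖F1 x e a - 1‖ ≤ 12 / 100 := by
  have hx0 : 0 < x := by linarith
  have hre := al_re hx0 h0.le h1 ha
  have hv := va_re h0.le h1 ha
  have hn16 : 16 ≤ ‖al x e a‖ := by
    have := Complex.re_le_norm (al x e a)
    linarith
  obtain ⟨μ, hG, hμ⟩ := hS (al x e a) (by linarith) (by linarith)
  have hexp := exp_PP (x := x) h0 h1 ha
  set α := al x e a with hα
  set v := 1 - a * e with hvdef
  have hαv : α = x * v := rfl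
  have hv0 : v ≠ 0 := by
    intro h; rw [h] at hv; norm_num at hv
  have hα0 : α ≠ 0 := by
    intro h; rw [h, norm_zero] at hn16; norm_num at hn16
  have hxc : (x : ℂ) ≠ 0 := by exact_mod_cast hx0.ne'
  have hxe' : (x : ℂ) * (e : ℂ) ^ 2 = 1 := by exact_mod_cast hxe
  have hlog : Complex.log α = (Real.log x : ℂ) + Complex.log v := by
    rw [hαv, Complex.log_ofReal_mul hx0 hv0]
  have hsq : Complex.exp (-(Real.log x : ℂ) / 2) = e := by
    have h2 : Real.exp (-(Real.log x) / 2) = e := by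
      have h3 : Real.exp (-(Real.log x) / 2) ^ 2 = e ^ 2 := by
        rw [← Real.exp_nat_mul]
        have : ((2 : ℕ) : ℝ) * (-(Real.log x) / 2) = -Real.log x := by push_cast; ring
        rw [this, Real.exp_neg, Real.exp_log hx0]
        field_simp
        linarith
      exact (pow_left_inj₀ (Real.exp_pos _).le h0.le two_ne_zero).1 h3
    rw [← h2]; push_cast; rfl
  have hM : MM x e a = Complex.exp (PP x e a + Complex.log (WW x e)) *
      ((1 - 3 / (2 * α)) * Complex.exp μ) := by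
    rw [hexp, MM, ← hα, hG, hlog]
    have h4 : Complex.exp (x - α * Real.log x) * ((Real.sqrt (2 * Real.pi) : ℂ) *
        Complex.exp ((α - 1/2) * ((Real.log x : ℂ) + Complex.log v) - α + μ)) =
        (Real.sqrt (2 * Real.pi) : ℂ) * (Complex.exp (x * (v * Complex.log v - v + 1) +
          Complex.log v / 2) * Complex.exp μ * e * v⁻¹) := by
      have h5 : v⁻¹ = Complex.exp (-Complex.log v) := by
        rw [Complex.exp_neg, Complex.exp_log hv0]
      rw [h5, ← hsq, mul_left_comm, ← Complex.exp_add, ← Complex.exp_add, ← Complex.exp_add,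
        ← Complex.exp_add]
      congr 2
      rw [hαv]; ring
    rw [h4]
    have h6 : (e : ℂ) * (α - 3 / 2) * (e * v⁻¹) = 1 - 3 / (2 * α) := by
      have h7 : (e : ℂ) ^ 2 = 1 / x := by
        field_simp; linear_combination hxe'
      have h8 : (e : ℂ) * (α - 3 / 2) * (e * v⁻¹) = (e : ℂ) ^ 2 * ((α - 3 / 2) * v⁻¹) := by ring
      rw [h8, h7, hαv]
      field_simp
    linear_combination (a * (Real.sqrt (2 * Real.pi) : ℂ) *
      (Complex.exp (x * (v * Complex.log v - v + 1) + Complex.log v / 2) * Complex.exp μ)) * h6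
  have hF : F1 x e a = (1 - 3 / (2 * α)) * Complex.exp μ := by
    rw [F1, hM, Complex.exp_neg]
    have := Complex.exp_ne_zero (PP x e a + Complex.log (WW x e))
    field_simp
  have hw : ‖3 / (2 * α)‖ ≤ 9375 / 100000 := by
    rw [norm_div, norm_mul]
    simp only [Complex.norm_ofNat]
    rw [div_le_iff₀ (by linarith)]
    linarith
  have hμ2 : ‖μ‖ ≤ 22 / 1000 := by
    refine hμ.trans ?_
    rw [div_le_iff₀ (by linarith)]
    linarith
  have hE := exp_near hμ2 (by norm_num)
  have hE2 : ‖Complex.exp μ‖ ≤ 1023 / 1000 := by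
    have := norm_le_norm_add_norm_sub' (Complex.exp μ) 1
    rw [norm_one] at this
    linarith
  have h9 : F1 x e a - 1 = (Complex.exp μ - 1) - 3 / (2 * α) * Complex.exp μ := by
    rw [hF]; ring
  rw [h9]
  refine (norm_sub_le _ _).trans ?_
  rw [norm_mul]
  calc ‖Complex.exp μ - 1‖ + ‖3 / (2 * α)‖ * ‖Complex.exp μ‖ ≤
      (22 / 1000 + (22 / 1000) ^ 2) + 9375 / 100000 * (1023 / 1000) := by gcongr
    _ ≤ _ := by norm_num

theorem F2_eq {R e : ℝ} (hR : 10 ≤ exp (4 * R)) (h0 : 0 < e)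
    (h1 : e ≤ 1785 / 10000) {a : ℂ} (ha : ‖a - cc e‖ ≤ 1 / 2) :
    F2 R e a - 1 = -(3 / (2 * (π * exp (4 * R) : ℝ))) -
      (al (π * exp (4 * R)) e a - 3 / 2) * q' (π * exp (4 * R)) (al (π * exp (4 * R)) e a) -
      a * e * EE R (al (π * exp (4 * R)) e a) := by
  have hR0 : 0 ≤ R := by linarith [fourR hR]
  have hp := pi_gt_d2
  have hx0 : 0 < π * exp (4 * R) := by positivity
  have hre := al_re hx0 h0.le h1 ha
  have hre0 : 0 < (al (π * exp (4 * R)) e a).re := by nlinarith
  rw [F2, two_ff hR0 hre0, K_total hx0 hre0, MM]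
  have hq := q_identity hx0 hre0
  set x := π * exp (4 * R) with hx
  set α := al x e a with hα
  have hαv : α = x * (1 - a * e) := rfl
  have hxc : (x : ℂ) ≠ 0 := by exact_mod_cast hx0.ne'
  set Q := q x α
  set Q' := q' x α
  set G := Complex.exp (x - α * Real.log x) * Complex.Gamma α
  set E := EE R α
  have hae : a * e = (x - α) / x := by
    rw [hαv]; field_simp; ring
  have h2 : a * e * Q = (1 - x * Q') / x := by
    rw [hae]
    field_simp
    linear_combination hq
  have h3 : a * e * (α - 3 / 2) * G - a * e * ((α - 3 / 2) * (G - Q) - 1 + E) - 1 =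
      (α - 3 / 2) * (a * e * Q) + a * e - a * e * E - 1 := by ring
  rw [h3, h2, hae]
  field_simp
  ring

theorem q'_est {x e : ℝ} (hx : 31.4 ≤ x) (hxe : x * e ^ 2 = 1) (h0 : 0 < e)
    (h1 : e ≤ 1785 / 10000) {a : ℂ} {B : ℝ} (hB : 0 < B) (ha : B ≤ 1 + a.re - e)
    (han : ‖al x e a‖ ≤ x) :
    ‖(al x e a - 3 / 2) * q' x (al x e a)‖ ≤ 1728 / 1000 / B ^ 2 := by
  have hx0 : 0 < x := by linarith
  have hs : sqrt x * e = 1 := by
    have h3 : (sqrt x * e) ^ 2 = 1 ^ 2 := by
      rw [mul_pow, Real.sq_sqrt hx0.le, hxe]; norm_num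
    exact (pow_left_inj₀ (by positivity) (by norm_num) two_ne_zero).1 h3
  have hs0 : 0 < sqrt x := Real.sqrt_pos.2 hx0
  have hss : sqrt x * sqrt x = x := mul_self_sqrt hx0.le
  have hre : (al x e a).re = x - a.re * sqrt x := by
    rw [al, Complex.re_ofReal_mul, Complex.sub_re, Complex.re_mul_ofReal, Complex.one_re]
    have : x * e = sqrt x := by
      calc x * e = sqrt x * (sqrt x * e) := by rw [← mul_assoc, hss]
        _ = _ := by rw [hs, mul_one]
    linear_combination (-a.re) * this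
  have hkey : (1 + a.re) * sqrt x - 1 = (1 + a.re - e) * sqrt x := by
    linear_combination (-1 : ℝ) * (by linarith [hs] : (1 : ℝ) = e * sqrt x)
  have hpos : 0 < (1 + a.re - e) * sqrt x := by
    apply mul_pos _ hs0; linarith
  have h2 := q'_bound hx0 hre (by linarith)
  rw [hkey, mul_pow, Real.sq_sqrt hx0.le] at h2
  rw [norm_mul]
  have h3 : ‖al x e a - 3 / 2‖ ≤ x + 3 / 2 := by
    refine (norm_sub_le _ _).trans ?_
    have : ‖(3 / 2 : ℂ)‖ = 3 / 2 := by
      rw [norm_div]; simp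
    rw [this]; linarith
  have h4 : exp (1 / 2) ≤ 16488 / 10000 := by
    have h5 : exp (1 / 2 : ℝ) ^ 2 = exp 1 := by rw [← exp_nat_mul]; norm_num
    have h6 := exp_one_lt_d9
    apply le_of_sq_le_sq _ (by norm_num)
    rw [h5]; norm_num at h6 ⊢; linarith
  have h7 : B ^ 2 ≤ (1 + a.re - e) ^ 2 := pow_le_pow_left₀ hB.le ha 2
  have h8 : (x + 3 / 2) / x ≤ 1048 / 1000 := by
    rw [div_le_iff₀ hx0]; linarith
  calc ‖al x e a - 3 / 2‖ * ‖q' x (al x e a)‖
      ≤ (x + 3 / 2) * (exp (1 / 2) / ((1 + a.re - e) ^ 2 * x)) := by gcongr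
    _ = exp (1 / 2) * ((x + 3 / 2) / x) / (1 + a.re - e) ^ 2 := by
        field_simp
    _ ≤ (16488 / 10000) * (1048 / 1000) / B ^ 2 := by gcongr
    _ ≤ 1728 / 1000 / B ^ 2 := by
        gcongr; norm_num

theorem F2_near {R e : ℝ} (hR : 10 ≤ exp (4 * R)) (hx : 31.4 ≤ π * exp (4 * R))
    (hxe : (π * exp (4 * R)) * e ^ 2 = 1) (h0 : 0 < e)
    (h1 : e ≤ 1785 / 10000) {a : ℂ} (ha : ‖a - cc e‖ ≤ 1 / 2) {B : ℝ} (hB : 0 < B)
    (hBa : B ≤ 1 + a.re - e) :
    ‖F2 R e a - 1‖ ≤ 1728 / 1000 / B ^ 2 + 631 / 10000 := by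
  have hx0 : 0 < π * exp (4 * R) := by linarith
  have hre := al_re hx0 h0.le h1 ha
  have han := al_norm hx0 h0.le h1 ha
  rw [F2_eq hR h0 h1 ha]
  have e1 := q'_est hx hxe h0 h1 hB hBa han
  have e2 := EE_bound hR (α := al (π * exp (4 * R)) e a) (by linarith) han
  have e3 : ‖(3 / (2 * ((π * exp (4 * R) : ℝ) : ℂ)))‖ ≤ 478 / 10000 := by
    rw [norm_div, norm_mul, Complex.norm_real, Real.norm_eq_abs, abs_of_pos hx0]
    simp only [Complex.norm_ofNat]
    rw [div_le_iff₀ (by linarith)]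
    linarith
  have e4 : ‖a * e * EE R (al (π * exp (4 * R)) e a)‖ ≤ 153 / 10000 := by
    rw [norm_mul, norm_mul, Complex.norm_real, Real.norm_eq_abs, abs_of_pos h0]
    have := disc_norm h0.le h1 ha
    calc ‖a‖ * e * ‖EE R (al (π * exp (4 * R)) e a)‖ ≤
        3882 / 1000 * (1785 / 10000) * (22 / 1000) := by gcongr
      _ ≤ _ := by norm_num
  refine (norm_sub_le _ _).trans ?_
  refine (add_le_add (norm_sub_le _ _) e4).trans ?_
  rw [norm_neg]
  linarith

/-- the function whose zero is sought -/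
noncomputable def Th (R e : ℝ) (a : ℂ) : ℂ :=
  PP (π * exp (4 * R)) e a + Complex.log (WW (π * exp (4 * R)) e) +
    Complex.log (F1 (π * exp (4 * R)) e a) - Complex.log (F2 R e a)

theorem slit_of_near {w : ℂ} {d : ℝ} (hw : ‖w - 1‖ ≤ d) (hd : d < 1) : w ∈ Complex.slitPlane := by
  have := one_add_slit (y := w - 1) (by linarith)
  rwa [add_sub_cancel] at this

theorem PP_diff {x e : ℝ} (h0 : 0 < e) (h1 : e ≤ 1785 / 10000) {a : ℂ}
    (ha : ‖a - cc e‖ ≤ 1 / 2) : DifferentiableAt ℂ (PP x e) a := by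
  have hy := yy_norm h0.le h1 ha
  have hh := hc_norm h0.le h1 ha
  have d1 : DifferentiableAt ℂ (yy e) a := by
    unfold yy; fun_prop
  have d2 : DifferentiableAt ℂ (fun a => Complex.log (1 + yy e a)) a :=
    (d1.const_add 1).clog (one_add_slit (by linarith))
  have d3 : DifferentiableAt ℂ (fun a => Complex.log (1 + (a - cc e) / cc e)) a := by
    apply DifferentiableAt.clog
    · fun_prop
    · exact one_add_slit (by linarith)
  unfold PP
  exact ((((((d1.const_add 1).mul d2).sub d1).add (d1.mul_const _)).const_mul _).add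
    (d2.div_const 2)).add d3

theorem MM_diff {x e : ℝ} (hx : 0 < x) (h0 : 0 < e) (h1 : e ≤ 1785 / 10000) {a : ℂ}
    (ha : ‖a - cc e‖ ≤ 1 / 2) : DifferentiableAt ℂ (MM x e) a := by
  have hre := al_re hx h0.le h1 ha
  have d1 : DifferentiableAt ℂ (al x e) a := by
    unfold al; fun_prop
  have d2 : DifferentiableAt ℂ (fun a => Complex.Gamma (al x e a)) a := by
    apply DifferentiableAt.comp a _ d1
    apply Complex.differentiableAt_Gamma
    intro m h
    rw [h] at hre
    simp at hre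
    have : (0 : ℝ) ≤ m := Nat.cast_nonneg m
    nlinarith
  unfold MM
  fun_prop

theorem large_R_of (hS : Stir) (R : ℝ) (hR : 10 ≤ exp (4 * R)) :
    ∃ z : ℂ, H R z = 0 ∧ z.im ≠ 0 := by
  have hR0 : 0 ≤ R := by linarith [fourR hR]
  have hp := pi_gt_d2
  have hx : 31.4 ≤ π * exp (4 * R) := by nlinarith
  have hx0 : 0 < π * exp (4 * R) := by linarith
  obtain ⟨e, he0, hxe⟩ : ∃ e : ℝ, 0 < e ∧ (π * exp (4 * R)) * e ^ 2 = 1 := by
    refine ⟨(sqrt (π * exp (4 * R)))⁻¹, inv_pos.2 (Real.sqrt_pos.2 hx0), ?_⟩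
    rw [inv_pow, Real.sq_sqrt hx0.le, mul_inv_cancel₀ hx0.ne']
  have he1 : e ≤ 1785 / 10000 := by
    by_contra hcon
    push Not at hcon
    have : (1785 / 10000 : ℝ) ^ 2 < e ^ 2 := by gcongr
    nlinarith
  have hF1 : ∀ a, ‖a - cc e‖ ≤ 1 / 2 → ‖F1 (π * exp (4 * R)) e a - 1‖ ≤ 12 / 100 :=
    fun a ha => F1_near hS hx hxe he0 he1 ha
  have hF2 : ∀ a, ‖a - cc e‖ ≤ 1 / 2 → ‖F2 R e a - 1‖ ≤ 366 / 1000 := by
    intro a ha
    refine (F2_near hR hx hxe he0 he1 ha (B := 2392 / 1000) (by norm_num) ?_).trans (by norm_num)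
    have := (disc_re ha).1
    linarith
  have hF2c : ‖F2 R e (cc e) - 1‖ ≤ 27 / 100 := by
    refine (F2_near hR hx hxe he0 he1 (a := cc e) (by simp) (B := 2892 / 1000) (by norm_num)
      ?_).trans (by norm_num)
    rw [cc_re]
    linarith
  have hW := WW_bound hx0 hxe he0 he1
  have l1 : ∀ a, ‖a - cc e‖ ≤ 1 / 2 → ‖Complex.log (F1 (π * exp (4 * R)) e a)‖ ≤ 129 / 1000 :=
    fun a ha => log_near (hF1 a ha) (by norm_num) (by norm_num)
  have l2 : ∀ a, ‖a - cc e‖ ≤ 1 / 2 → ‖Complex.log (F2 R e a)‖ ≤ 472 / 1000 :=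
    fun a ha => log_near (hF2 a ha) (by norm_num) (by norm_num)
  have l3 : ‖Complex.log (F2 R e (cc e))‖ ≤ 32 / 100 :=
    log_near hF2c (by norm_num) (by norm_num)
  have hdiff : ∀ a, ‖a - cc e‖ ≤ 1 / 2 → DifferentiableAt ℂ (Th R e) a := by
    intro a ha
    have d1 := PP_diff (x := π * exp (4 * R)) he0 he1 ha
    have d2 := MM_diff hx0 he0 he1 ha
    have d3 : DifferentiableAt ℂ (F1 (π * exp (4 * R)) e) a := by
      unfold F1
      exact d2.mul ((d1.add_const _).neg.cexp)
    have d4 : DifferentiableAt ℂ (al (π * exp (4 * R)) e) a := by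
      unfold al; fun_prop
    have d5 : DifferentiableAt ℂ (fun a => ff R (4 * al (π * exp (4 * R)) e a - 5)) a := by
      apply DifferentiableAt.comp a (ff_differentiable hR0 _)
      exact (d4.const_mul 4).sub_const 5
    have d6 : DifferentiableAt ℂ (fun a => uu R (al (π * exp (4 * R)) e a)) a := by
      unfold uu; fun_prop
    have d7 : DifferentiableAt ℂ (F2 R e) a := by
      unfold F2
      exact d2.sub (((differentiableAt_id.mul_const _)).mul
        ((d5.const_mul 2).div d6 (uu_ne R _)))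
    unfold Th
    exact ((d1.add_const _).add (d3.clog (slit_of_near (hF1 a ha) (by norm_num)))).sub
      (d7.clog (slit_of_near (hF2 a ha) (by norm_num)))
  obtain ⟨a, ha, hz⟩ := exists_zero_of_min (f := Th R e) (c := cc e) (r := 1 / 2) (by norm_num)
    (by
      apply DifferentiableOn.diffContOnCl
      intro a ha
      rw [closure_ball _ (by norm_num), mem_closedBall, dist_eq_norm] at ha
      exact (hdiff a ha).differentiableWithinAt)
    (by
      intro a ha
      have b1 : ‖Th R e (cc e)‖ ≤ 529 / 1000 := by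
        rw [Th, PP_centre, zero_add]
        refine (norm_sub_le _ _).trans ?_
        refine (add_le_add (norm_add_le _ _) l3).trans ?_
        have := l1 (cc e) (by simp)
        linarith
      have b2 := PP_lower hx0 hxe he0 he1 ha
      have b3 := l1 a ha.le
      have b4 := l2 a ha.le
      have b5 : PP (π * exp (4 * R)) e a = Th R e a + (Complex.log (F2 R e a) +
        (-Complex.log (WW (π * exp (4 * R)) e)) + (-Complex.log (F1 (π * exp (4 * R)) e a))) := by
        rw [Th]; ring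
      have b6 : ‖PP (π * exp (4 * R)) e a‖ ≤ ‖Th R e a‖ + (472 / 1000 + 8 / 100 + 129 / 1000) := by
        rw [b5]
        refine (norm_add_le _ _).trans ?_
        have := norm_add₃_le (a := Complex.log (F2 R e a))
          (b := -Complex.log (WW (π * exp (4 * R)) e))
          (c := -Complex.log (F1 (π * exp (4 * R)) e a))
        rw [norm_neg, norm_neg] at this
        linarith
      linarith)
  have ha' : ‖a - cc e‖ ≤ 1 / 2 := ha.le
  have hre := al_re hx0 he0.le he1 ha'
  have hare := (disc_re ha').1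
  have ha0 : a ≠ 0 := by
    rintro rfl
    simp at hare
    linarith
  have n1 : F1 (π * exp (4 * R)) e a ≠ 0 :=
    Complex.slitPlane_ne_zero (slit_of_near (hF1 a ha') (by norm_num))
  have n2 : F2 R e a ≠ 0 :=
    Complex.slitPlane_ne_zero (slit_of_near (hF2 a ha') (by norm_num))
  have h3 : Complex.exp (PP (π * exp (4 * R)) e a + Complex.log (WW (π * exp (4 * R)) e) +
      Complex.log (F1 (π * exp (4 * R)) e a)) = F2 R e a := by
    have : PP (π * exp (4 * R)) e a + Complex.log (WW (π * exp (4 * R)) e) +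
      Complex.log (F1 (π * exp (4 * R)) e a) = Complex.log (F2 R e a) := by
      rw [Th] at hz
      linear_combination hz
    rw [this, Complex.exp_log n2]
  rw [Complex.exp_add, Complex.exp_log n1, F1, F2, Complex.exp_neg, mul_left_comm,
    mul_inv_cancel₀ (Complex.exp_ne_zero _), mul_one] at h3
  have h4 : a * e * (2 * ff R (4 * al (π * exp (4 * R)) e a - 5) /
    uu R (al (π * exp (4 * R)) e a)) = 0 := by linear_combination h3
  have he0' : (e : ℂ) ≠ 0 := by exact_mod_cast he0.ne'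
  have h5 : ff R (4 * al (π * exp (4 * R)) e a - 5) = 0 := by
    rcases mul_eq_zero.1 h4 with h6 | h6
    · exact absurd h6 (mul_ne_zero ha0 he0')
    · rcases div_eq_zero_iff.1 h6 with h7 | h7
      · rcases mul_eq_zero.1 h7 with h8 | h8
        · norm_num at h8
        · exact h8
      · exact absurd h7 (uu_ne R _)
  refine ⟨(4 * al (π * exp (4 * R)) e a - 5) * Complex.I, ?_, ?_⟩
  · rw [H_eq]; exact h5
  · have h6 : ((4 * al (π * exp (4 * R)) e a - 5) * Complex.I).im =
        4 * (al (π * exp (4 * R)) e a).re - 5 := by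
      simp
    rw [h6]
    have : 15 ≤ (al (π * exp (4 * R)) e a).re := by linarith
    linarith

end Pool.Agent.Helper62.XiB
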