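import Pool.Agent.Helper62.XiB.Num

/-! Geometry of the disc and logarithms. -/

open Set Real

namespace Pool.Agent.Helper62.XiB

theorem log_series {b : ℂ} (hb : ‖b‖ < 1) :
    ‖Complex.log (1 - b) + b * hevC l12 b‖ ≤ ‖b‖ ^ 13 * (1 - ‖b‖)⁻¹ / 13 := by
  have h := Complex.norm_log_sub_logTaylor_le 12 (z := -b) (by rwa [norm_neg])
  have h2 : Complex.logTaylor 13 (-b) = -(b * hevC l12 b) := by
    simp only [Complex.logTaylor, Finset.sum_range_succ, hevC, l12, Finset.sum_range_zero]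
    push_cast
    ring
  rw [norm_neg, h2, sub_neg_eq_add, ← sub_eq_add_neg] at h
  refine h.trans (le_of_eq ?_)
  norm_num

theorem poly_id (b : ℂ) : (1 - b) * (-(b * hevC l12 b)) + b = b ^ 2 * hevC s12 b := by
  simp only [hevC, l12, s12]
  push_cast
  ring

theorem cc_re (e : ℝ) : (cc e).re = 1892 / 1000 + 1505 / 1000 * e := by
  simp [cc]

theorem cc_im (e : ℝ) : (cc e).im = 2803 / 1000 - 1744 / 1000 * e := by
  simp [cc]; ring

theorem cc_normsq (e : ℝ) : ‖cc e‖ ^ 2 = 11436473 / 10 ^ 6 - 4081944 / 10 ^ 6 * e +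
    5306561 / 10 ^ 6 * e ^ 2 := by
  rw [Complex.sq_norm, Complex.normSq_apply, cc_re, cc_im]; ring

theorem cc_norm_le {e : ℝ} (h0 : 0 ≤ e) (h1 : e ≤ 1785 / 10000) : ‖cc e‖ ≤ 3382 / 1000 := by
  apply le_of_sq_le_sq _ (by norm_num)
  rw [cc_normsq]
  nlinarith

theorem cc_norm_ge {e : ℝ} (h0 : 0 ≤ e) (h1 : e ≤ 1785 / 10000) : 329 / 100 ≤ ‖cc e‖ := by
  apply le_of_sq_le_sq _ (norm_nonneg _)
  rw [cc_normsq]
  nlinarith

theorem cc_ne {e : ℝ} (h0 : 0 ≤ e) (h1 : e ≤ 1785 / 10000) : cc e ≠ 0 := by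
  intro h
  have := cc_norm_ge h0 h1
  rw [h, norm_zero] at this
  norm_num at this

theorem bb_norm_le {e : ℝ} (h0 : 0 ≤ e) (h1 : e ≤ 1785 / 10000) : ‖cc e * e‖ ≤ 6037 / 10000 := by
  rw [norm_mul, Complex.norm_real, Real.norm_eq_abs, abs_of_nonneg h0]
  have := cc_norm_le h0 h1
  calc ‖cc e‖ * e ≤ 3382 / 1000 * (1785 / 10000) := by gcongr
    _ ≤ _ := by norm_num

theorem vc_re {e : ℝ} (h0 : 0 ≤ e) (h1 : e ≤ 1785 / 10000) : 614 / 1000 ≤ (1 - cc e * e).re := by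
  rw [Complex.sub_re, Complex.re_mul_ofReal, cc_re, Complex.one_re]
  nlinarith

theorem vc_norm_ge {e : ℝ} (h0 : 0 ≤ e) (h1 : e ≤ 1785 / 10000) :
    614 / 1000 ≤ ‖1 - cc e * e‖ := (vc_re h0 h1).trans (Complex.re_le_norm _)

theorem disc_re {e : ℝ} {a : ℂ} (ha : ‖a - cc e‖ ≤ 1 / 2) :
    1392 / 1000 + 1505 / 1000 * e ≤ a.re ∧ a.re ≤ 2392 / 1000 + 1505 / 1000 * e := by
  have h1 := (Complex.abs_re_le_norm (a - cc e)).trans ha
  rw [Complex.sub_re, cc_re, abs_le] at h1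
  constructor <;> linarith

theorem disc_norm {e : ℝ} (h0 : 0 ≤ e) (h1 : e ≤ 1785 / 10000) {a : ℂ} (ha : ‖a - cc e‖ ≤ 1 / 2) :
    ‖a‖ ≤ 3882 / 1000 := by
  have h2 := norm_le_norm_add_norm_sub' a (cc e)
  have h3 := cc_norm_le h0 h1
  linarith

theorem va_re {e : ℝ} (h0 : 0 ≤ e) (h1 : e ≤ 1785 / 10000) {a : ℂ} (ha : ‖a - cc e‖ ≤ 1 / 2) :
    525 / 1000 ≤ (1 - a * e).re := by
  have h2 := (disc_re ha).2
  rw [Complex.sub_re, Complex.re_mul_ofReal, Complex.one_re]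
  nlinarith

theorem va_norm {e : ℝ} (h0 : 0 ≤ e) (h1 : e ≤ 1785 / 10000) {a : ℂ} (ha : ‖a - cc e‖ ≤ 1 / 2) :
    ‖1 - a * e‖ ≤ 1 := by
  have h2 := (disc_re ha).1
  have h3 := disc_norm h0 h1 ha
  apply le_of_sq_le_sq _ (by norm_num)
  rw [Complex.sq_norm, Complex.normSq_apply, Complex.sub_re, Complex.sub_im,
    Complex.re_mul_ofReal, Complex.im_mul_ofReal, Complex.one_re, Complex.one_im]
  have h4 : a.re ^ 2 + a.im ^ 2 = ‖a‖ ^ 2 := by
    rw [Complex.sq_norm, Complex.normSq_apply]; ring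
  have h5 : ‖a‖ ^ 2 ≤ (3882 / 1000) ^ 2 := pow_le_pow_left₀ (norm_nonneg _) h3 2
  have h6 : e ^ 2 * ‖a‖ ^ 2 ≤ e * (1785 / 10000) * (3882 / 1000) ^ 2 := by
    have : e ^ 2 ≤ e * (1785 / 10000) := by nlinarith
    calc e ^ 2 * ‖a‖ ^ 2 ≤ (e * (1785 / 10000)) * (3882 / 1000) ^ 2 := by gcongr
      _ = _ := by ring
  nlinarith

/-- logarithm of a product of two numbers in the right half plane -/
theorem log_mul_right {z w : ℂ} (hz : 0 < z.re) (hw : 0 < w.re) :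
    Complex.log (z * w) = Complex.log z + Complex.log w := by
  have hz0 : z ≠ 0 := by rintro rfl; simp at hz
  have hw0 : w ≠ 0 := by rintro rfl; simp at hw
  apply Complex.log_mul hz0 hw0
  have h1 := Complex.abs_arg_lt_pi_div_two_iff.2 (Or.inl hz)
  have h2 := Complex.abs_arg_lt_pi_div_two_iff.2 (Or.inl hw)
  rw [abs_lt] at h1 h2
  constructor <;> linarith [h1.1, h1.2, h2.1, h2.2]

theorem one_add_re {y : ℂ} (hy : ‖y‖ < 1) : 0 < (1 + y).re := by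
  have := (abs_le.1 (Complex.abs_re_le_norm y)).1
  rw [Complex.add_re, Complex.one_re]; linarith

theorem one_add_slit {y : ℂ} (hy : ‖y‖ < 1) : 1 + y ∈ Complex.slitPlane :=
  Complex.mem_slitPlane_of_norm_lt_one hy

theorem log_near {w : ℂ} {d D : ℝ} (hw : ‖w - 1‖ ≤ d) (hd : d < 1)
    (hD : d + d ^ 2 * (1 - d)⁻¹ / 2 ≤ D) : ‖Complex.log w‖ ≤ D := by
  have h1 := Complex.norm_log_one_add_le (z := w - 1) (lt_of_le_of_lt hw hd)
  rw [add_sub_cancel] at h1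
  refine h1.trans (le_trans ?_ hD)
  have h2 : (1 - ‖w - 1‖)⁻¹ ≤ (1 - d)⁻¹ := by
    apply inv_anti₀ <;> linarith
  have h3 : 0 ≤ (1 - ‖w - 1‖)⁻¹ := by
    apply inv_nonneg.2; linarith
  have h4 : ‖w - 1‖ ^ 2 ≤ d ^ 2 := pow_le_pow_left₀ (norm_nonneg _) hw 2
  have h5 : ‖w - 1‖ ^ 2 * (1 - ‖w - 1‖)⁻¹ ≤ d ^ 2 * (1 - d)⁻¹ := by gcongr
  linarith

/-- exponential near one -/
theorem exp_near {w : ℂ} {d : ℝ} (hw : ‖w‖ ≤ d) (hd : d ≤ 1) : ‖Complex.exp w - 1‖ ≤ d + d ^ 2 := by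
  have h1 := Complex.norm_exp_sub_one_sub_id_le (x := w) (hw.trans hd)
  have h2 : Complex.exp w - 1 = (Complex.exp w - 1 - w) + w := by ring
  rw [h2]
  refine (norm_add_le _ _).trans ?_
  have h4 : ‖w‖ ^ 2 ≤ d ^ 2 := pow_le_pow_left₀ (norm_nonneg _) hw 2
  linarith

/-- the exponent at the centre -/
noncomputable def Z' (x e : ℝ) : ℂ :=
  x * ((1 - cc e * e) * Complex.log (1 - cc e * e) - (1 - cc e * e) + 1) +
    Complex.log (1 - cc e * e) / 2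

noncomputable def WW (x e : ℝ) : ℂ := cc e * ((Real.sqrt (2 * π) : ℝ) : ℂ) * Complex.exp (Z' x e)

theorem pow_bound {b : ℂ} (hb : ‖b‖ ≤ 6037 / 10000) : ‖b‖ ^ 11 ≤ 389 / 10 ^ 5 := by
  calc ‖b‖ ^ 11 ≤ (6037 / 10000) ^ 11 := pow_le_pow_left₀ (norm_nonneg _) hb _
    _ ≤ _ := by norm_num

theorem inv_bound {b : ℂ} (hb : ‖b‖ ≤ 6037 / 10000) : (1 - ‖b‖)⁻¹ ≤ 2524 / 1000 := by
  calc (1 - ‖b‖)⁻¹ ≤ (1 - 6037 / 10000)⁻¹ := by
        apply inv_anti₀ (by norm_num); linarith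
    _ ≤ _ := by norm_num

theorem Z'_near {x e : ℝ} (hx : 0 < x) (hxe : x * e ^ 2 = 1) (h0 : 0 < e)
    (h1 : e ≤ 1785 / 10000) : ‖Z' x e - ZZ e‖ ≤ 9 / 1000 := by
  set b := cc e * e with hb
  have hbn : ‖b‖ ≤ 6037 / 10000 := bb_norm_le h0.le h1
  have hb1 : ‖b‖ < 1 := by linarith
  have hls := log_series hb1
  have hpi := poly_id b
  have hxb : (x : ℂ) * b ^ 2 = cc e ^ 2 := by
    have : (x : ℂ) * (e : ℂ) ^ 2 = 1 := by exact_mod_cast hxe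
    rw [hb]; linear_combination (cc e ^ 2) * this
  have e1 : Z' x e - ZZ e = (x * (1 - b) + 1 / 2) * (Complex.log (1 - b) + b * hevC l12 b) := by
    rw [Z', ZZ, ← hb, ← hxb]
    linear_combination (x : ℂ) * hpi
  rw [e1, norm_mul]
  have hv : ‖1 - b‖ ≤ 1 := va_norm h0.le h1 (a := cc e) (by simp)
  have a1 : ‖(x : ℂ) * (1 - b) + 1 / 2‖ ≤ x + 1 / 2 := by
    refine (norm_add_le _ _).trans ?_
    rw [norm_mul, Complex.norm_real, Real.norm_eq_abs, abs_of_pos hx]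
    have : ‖(1 / 2 : ℂ)‖ = 1 / 2 := by simp
    rw [this]
    nlinarith
  have a2 : x * ‖b‖ ^ 2 ≤ 11437 / 1000 := by
    have : x * ‖b‖ ^ 2 = ‖cc e‖ ^ 2 := by
      rw [hb, norm_mul, Complex.norm_real, Real.norm_eq_abs, abs_of_pos h0]
      linear_combination (‖cc e‖ ^ 2) * hxe
    rw [this, cc_normsq]
    nlinarith
  have a3 : ‖b‖ ^ 2 ≤ 365 / 1000 := by
    calc ‖b‖ ^ 2 ≤ (6037 / 10000) ^ 2 := pow_le_pow_left₀ (norm_nonneg _) hbn _
      _ ≤ _ := by norm_num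
  have a4 := pow_bound hbn
  have a5 := inv_bound hbn
  have a6 : 0 ≤ (1 - ‖b‖)⁻¹ := by apply inv_nonneg.2; linarith
  have a7 : (x + 1 / 2) * ‖b‖ ^ 2 ≤ 1162 / 100 := by nlinarith
  calc ‖(x : ℂ) * (1 - b) + 1 / 2‖ * ‖Complex.log (1 - b) + b * hevC l12 b‖
      ≤ (x + 1 / 2) * (‖b‖ ^ 13 * (1 - ‖b‖)⁻¹ / 13) := by gcongr
    _ = ((x + 1 / 2) * ‖b‖ ^ 2) * ‖b‖ ^ 11 * (1 - ‖b‖)⁻¹ / 13 := by ring
    _ ≤ (1162 / 100) * (389 / 10 ^ 5) * (2524 / 1000) / 13 := by gcongr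
    _ ≤ _ := by norm_num

theorem WW_bound {x e : ℝ} (hx : 0 < x) (hxe : x * e ^ 2 = 1) (h0 : 0 < e)
    (h1 : e ≤ 1785 / 10000) : ‖Complex.log (WW x e)‖ ≤ 8 / 100 := by
  obtain ⟨⟨w, hw1, hw2⟩, -⟩ := num_facts h0.le h1
  have hz := Z'_near hx hxe h0 h1
  set V := cc e * ((Real.sqrt (2 * Real.pi) : ℝ) : ℂ) * Complex.exp w with hV
  have e1 : WW x e = V * Complex.exp (Z' x e - w) := by
    rw [hV, WW, mul_assoc _ (Complex.exp w), ← Complex.exp_add]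
    congr 2; ring
  have h2 : ‖Z' x e - w‖ ≤ 4 / 100 := by
    have : Z' x e - w = (Z' x e - ZZ e) + (ZZ e - w) := by ring
    rw [this]
    refine (norm_add_le _ _).trans ?_
    linarith
  have h3 := exp_near h2 (by norm_num)
  have h4 : ‖V‖ ≤ 1024 / 1000 := by
    have := norm_le_norm_add_norm_sub' V 1
    rw [norm_one] at this
    linarith
  have h5 : ‖WW x e - 1‖ ≤ 7 / 100 := by
    have : WW x e - 1 = V * (Complex.exp (Z' x e - w) - 1) + (V - 1) := by rw [e1]; ring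
    rw [this]
    refine (norm_add_le _ _).trans ?_
    rw [norm_mul]
    calc ‖V‖ * ‖Complex.exp (Z' x e - w) - 1‖ + ‖V - 1‖ ≤
        1024 / 1000 * (4 / 100 + (4 / 100) ^ 2) + 24 / 1000 := by gcongr
      _ ≤ _ := by norm_num
  exact log_near h5 (by norm_num) (by norm_num)

theorem WW_ne {x e : ℝ} (h0 : 0 < e) (h1 : e ≤ 1785 / 10000) : WW x e ≠ 0 := by
  unfold WW
  apply mul_ne_zero (mul_ne_zero (cc_ne h0.le h1) _) (Complex.exp_ne_zero _)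
  have : 0 < Real.sqrt (2 * π) := Real.sqrt_pos.2 (by have := pi_pos; positivity)
  exact_mod_cast this.ne'

/-- derivative at the centre -/
noncomputable def PD (e : ℝ) : ℂ :=
  -Complex.log (1 - cc e * e) / e + 1 / cc e - e / (2 * (1 - cc e * e))

theorem PD_bound {e : ℝ} (h0 : 0 < e) (h1 : e ≤ 1785 / 10000) : 3269 / 1000 ≤ ‖PD e‖ := by
  obtain ⟨-, hn⟩ := num_facts h0.le h1
  set b := cc e * e with hb
  have hbn : ‖b‖ ≤ 6037 / 10000 := bb_norm_le h0.le h1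
  have hb1 : ‖b‖ < 1 := by linarith
  have hls := log_series hb1
  have he0 : (e : ℂ) ≠ 0 := by exact_mod_cast h0.ne'
  have hv : 1 - b ≠ 0 := by
    intro h
    have := vc_norm_ge h0.le h1
    rw [← hb, h, norm_zero] at this
    norm_num at this
  have hc := cc_ne h0.le h1
  set D := cc e * hevC l12 b + ((cc e)⁻¹ - (e : ℂ) / 2 * (1 - b)⁻¹) with hD
  have e1 : PD e = D - (Complex.log (1 - b) + b * hevC l12 b) / e := by
    rw [PD, hD, ← hb]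
    have : b * hevC l12 b / e = cc e * hevC l12 b := by
      rw [hb]; field_simp
    rw [add_div, this]
    field_simp
    ring
  have h2 : ‖(Complex.log (1 - b) + b * hevC l12 b) / e‖ ≤ 2 / 1000 := by
    rw [norm_div, Complex.norm_real, Real.norm_eq_abs, abs_of_pos h0]
    have a4 := pow_bound hbn
    have a5 := inv_bound hbn
    have a6 : 0 ≤ (1 - ‖b‖)⁻¹ := by apply inv_nonneg.2; linarith
    have a7 : ‖b‖ / e = ‖cc e‖ := by
      rw [hb, norm_mul, Complex.norm_real, Real.norm_eq_abs, abs_of_pos h0]; field_simp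
    have a8 := cc_norm_le h0.le h1
    calc _ ≤ (‖b‖ ^ 13 * (1 - ‖b‖)⁻¹ / 13) / e := by gcongr
      _ = ‖b‖ ^ 11 * ‖b‖ * (1 - ‖b‖)⁻¹ / 13 * (‖b‖ / e) := by ring
      _ ≤ (389 / 10 ^ 5) * (6037 / 10000) * (2524 / 1000) / 13 * (3382 / 1000) := by
        rw [a7]; gcongr
      _ ≤ _ := by norm_num
  have h3 := norm_sub_norm_le D ((Complex.log (1 - b) + b * hevC l12 b) / e)
  rw [← e1] at h3
  linarith

end Pool.Agent.Helper62.XiB
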