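import Mathlib

/-! The kernel `K(r) = exp (α r - x (e^r - 1))`. -/

open MeasureTheory Set Real Filter Topology

namespace Pool.Agent.Helper62.XiB

/-- the kernel -/
noncomputable def K (x : ℝ) (α : ℂ) (r : ℝ) : ℂ :=
  Complex.exp (α * r - x * (Complex.exp r - 1))

theorem K_cont (x : ℝ) (α : ℂ) : Continuous (K x α) := by unfold K; fun_prop

theorem norm_K (x : ℝ) (α : ℂ) (r : ℝ) : ‖K x α r‖ = exp (α.re * r - x * (exp r - 1)) := by
  rw [K, Complex.norm_exp]
  congr 1
  have h : Complex.exp (r : ℂ) = ((exp r : ℝ) : ℂ) := by push_cast; rfl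
  rw [h]
  simp [Complex.sub_re, Complex.mul_re, -Complex.ofReal_exp]

theorem exp_image_univ {x : ℝ} (hx : 0 < x) : (fun r : ℝ => x * exp r) '' univ = Ioi 0 := by
  ext w
  simp only [image_univ, mem_range, mem_Ioi]
  constructor
  · rintro ⟨r, rfl⟩; positivity
  · intro hw
    refine ⟨log (w / x), ?_⟩
    rw [exp_log (by positivity)]
    field_simp

theorem exp_injOn {x : ℝ} (hx : 0 < x) : InjOn (fun r : ℝ => x * exp r) univ := by
  intro a _ b _ h
  exact exp_injective (mul_left_cancel₀ hx.ne' h)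

theorem K_transform {x : ℝ} (hx : 0 < x) (α : ℂ) (r : ℝ) :
    |x * exp r| • (((Real.exp (-(x * exp r)) : ℝ) : ℂ) * ((x * exp r : ℝ) : ℂ) ^ (α - 1)) =
      Complex.exp (α * Real.log x - x) * K x α r := by
  have h1 : 0 < x * exp r := by positivity
  have h2 : ((x * exp r : ℝ) : ℂ) ≠ 0 := by exact_mod_cast h1.ne'
  rw [abs_of_pos h1, Complex.real_smul, Complex.cpow_sub _ _ h2, Complex.cpow_one,
    Complex.cpow_def_of_ne_zero h2, K, ← Complex.ofReal_log h1.le,
    log_mul hx.ne' (exp_ne_zero r), log_exp]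
  have h3 : ((x * exp r : ℝ) : ℂ) * (((Real.exp (-(x * exp r)) : ℝ) : ℂ) *
      (Complex.exp (((Real.log x + r : ℝ) : ℂ) * α) / ((x * exp r : ℝ) : ℂ))) =
      ((Real.exp (-(x * exp r)) : ℝ) : ℂ) * Complex.exp (((Real.log x + r : ℝ) : ℂ) * α) := by
    field_simp
  rw [h3, Complex.ofReal_exp, ← Complex.exp_add, ← Complex.exp_add]
  congr 1
  push_cast
  ring

theorem K_integrable {x : ℝ} (hx : 0 < x) {α : ℂ} (hα : 0 < α.re) : Integrable (K x α) := by
  have h1 := Complex.GammaIntegral_convergent hα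
  have h2 := (integrableOn_image_iff_integrableOn_abs_deriv_smul (s := univ)
    (f := fun r : ℝ => x * exp r) (f' := fun r : ℝ => x * exp r) MeasurableSet.univ
    (fun r _ => ((Real.hasDerivAt_exp r).const_mul x).hasDerivWithinAt) (exp_injOn hx)
    (fun w : ℝ => ((Real.exp (-w) : ℝ) : ℂ) * (w : ℂ) ^ (α - 1)))
  rw [exp_image_univ hx] at h2
  have h3 := h2.1 h1
  rw [integrableOn_univ] at h3
  have h4 : Integrable (fun r => Complex.exp (α * Real.log x - x) * K x α r) := by
    refine h3.congr ?_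
    filter_upwards with r
    exact K_transform hx α r
  have h5 := h4.const_mul (Complex.exp (α * Real.log x - x))⁻¹
  refine h5.congr ?_
  filter_upwards with r
  rw [← mul_assoc, inv_mul_cancel₀ (Complex.exp_ne_zero _), one_mul]

theorem K_total {x : ℝ} (hx : 0 < x) {α : ℂ} (hα : 0 < α.re) :
    ∫ r, K x α r = Complex.exp (x - α * Real.log x) * Complex.Gamma α := by
  have h2 := (integral_image_eq_integral_abs_deriv_smul (s := univ)
    (f := fun r : ℝ => x * exp r) (f' := fun r : ℝ => x * exp r) MeasurableSet.univ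
    (fun r _ => ((Real.hasDerivAt_exp r).const_mul x).hasDerivWithinAt) (exp_injOn hx)
    (fun w : ℝ => ((Real.exp (-w) : ℝ) : ℂ) * (w : ℂ) ^ (α - 1)))
  rw [exp_image_univ hx, setIntegral_univ] at h2
  have h3 : ∫ r : ℝ, |x * exp r| • (((Real.exp (-(x * exp r)) : ℝ) : ℂ) *
      ((x * exp r : ℝ) : ℂ) ^ (α - 1)) = Complex.exp (α * Real.log x - x) * ∫ r, K x α r := by
    rw [← integral_const_mul]
    congr 1
    ext r
    exact K_transform hx α r
  rw [h3] at h2
  have h4 : Complex.Gamma α = ∫ w in Ioi (0 : ℝ), ((Real.exp (-w) : ℝ) : ℂ) * (w : ℂ) ^ (α - 1) := by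
    rw [Complex.Gamma_eq_integral hα, Complex.GammaIntegral]
  rw [h4, h2, ← mul_assoc, ← Complex.exp_add]
  have : (x : ℂ) - α * Real.log x + (α * Real.log x - x) = 0 := by ring
  rw [this, Complex.exp_zero, one_mul]

theorem K_hasDerivAt (x : ℝ) (α : ℂ) (r : ℝ) :
    HasDerivAt (K x α) ((α - x * Complex.exp r) * K x α r) r := by
  have h1 : HasDerivAt (fun w : ℂ => α * w) α (r : ℂ) := by
    simpa using (hasDerivAt_id (r : ℂ)).const_mul α
  have h2 : HasDerivAt (fun w : ℂ => (x : ℂ) * (Complex.exp w - 1)) (x * Complex.exp r) (r : ℂ) :=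
    ((Complex.hasDerivAt_exp (r : ℂ)).sub_const 1).const_mul (x : ℂ)
  have h3 := ((h1.sub h2).cexp).comp_ofReal
  refine h3.congr_deriv ?_
  rw [K]
  simp only [Pi.sub_apply]
  ring

/-- upper incomplete part -/
noncomputable def q (x : ℝ) (α : ℂ) : ℂ := ∫ r in Ioi (0 : ℝ), K x α r

/-- the derivative type integral -/
noncomputable def q' (x : ℝ) (α : ℂ) : ℂ := ∫ (r : ℝ) in Ioi (0 : ℝ), (Complex.exp (r : ℂ) - 1) * K x α r

theorem expK (x : ℝ) (α : ℂ) (r : ℝ) : Complex.exp r * K x α r = K x (α + 1) r := by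
  rw [K, K, ← Complex.exp_add]; congr 1; ring

theorem q_identity {x : ℝ} (hx : 0 < x) {α : ℂ} (hα : 0 < α.re) :
    (x - α) * q x α + x * q' x α = 1 := by
  have i1 : IntegrableOn (K x α) (Ioi 0) := (K_integrable hx hα).integrableOn
  have i2 : IntegrableOn (K x (α + 1)) (Ioi 0) :=
    (K_integrable hx (by simp; linarith)).integrableOn
  have e1 : ∀ r : ℝ, (α - x * Complex.exp r) * K x α r = α * K x α r - x * K x (α + 1) r := by
    intro r; rw [← expK]; ring
  have i3 : IntegrableOn (fun r : ℝ => (α - x * Complex.exp r) * K x α r) (Ioi 0) := by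
    simp_rw [e1]
    exact (i1.const_mul α).sub (i2.const_mul (x : ℂ))
  have h1 := tendsto_zero_of_hasDerivAt_of_integrableOn_Ioi
    (fun r _ => K_hasDerivAt x α r) i3 i1
  have h2 := integral_Ioi_of_hasDerivAt_of_tendsto (a := 0)
    (K_cont x α).continuousWithinAt (fun r _ => K_hasDerivAt x α r) i3 h1
  have h3 : K x α 0 = 1 := by simp [K]
  rw [h3] at h2
  simp_rw [e1] at h2
  rw [integral_sub (i1.const_mul α) (i2.const_mul (x : ℂ)), integral_const_mul,
    integral_const_mul] at h2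
  have h4 : q' x α = (∫ r in Ioi (0 : ℝ), K x (α + 1) r) - q x α := by
    rw [q', q, ← integral_sub i2 i1]
    congr 1
    ext r
    rw [← expK]; ring
  rw [h4, q]
  linear_combination -h2

theorem q'_bound {x A : ℝ} (hx : 0 < x) {α : ℂ} (hre : α.re = x - A * sqrt x)
    (hA : 1 < (1 + A) * sqrt x) : ‖q' x α‖ ≤ exp (1 / 2) / ((1 + A) * sqrt x - 1) ^ 2 := by
  set β := (1 + A) * sqrt x - 1 with hβ
  have hβ0 : 0 < β := by linarith
  have hs : sqrt x * sqrt x = x := mul_self_sqrt hx.le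
  have key := Real.integral_rpow_mul_exp_neg_mul_Ioi (a := 2) (r := β) (by norm_num) hβ0
  have hint : IntegrableOn (fun r : ℝ => r * exp (-(β * r))) (Ioi 0) := by
    have := integrableOn_rpow_mul_exp_neg_mul_rpow (s := 1) (p := 1) (b := β) (by norm_num)
      one_pos hβ0
    refine this.congr_fun ?_ measurableSet_Ioi
    intro r hr
    simp
  have hpt : ∀ r ∈ Ioi (0 : ℝ), ‖(Complex.exp r - 1) * K x α r‖ ≤
      exp (1 / 2) * (r * exp (-(β * r))) := by
    intro r hr
    have hr0 : 0 < r := hr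
    have h1 : Complex.exp (r : ℂ) - 1 = ((exp r - 1 : ℝ) : ℂ) := by push_cast; rfl
    have h2 : exp r - 1 ≤ r * exp r := by
      have h3 := add_one_le_exp (-r)
      have h4 : exp (-r) * exp r = 1 := by rw [← exp_add]; simp
      nlinarith [exp_pos r]
    have h0 : 0 ≤ exp r - 1 := by linarith [add_one_le_exp r]
    rw [norm_mul, norm_K, h1, Complex.norm_real, Real.norm_eq_abs, abs_of_nonneg h0]
    have h5 : 1 + r + r ^ 2 / 2 ≤ exp r := quadratic_le_exp_of_nonneg hr0.le
    have h6 : r + (α.re * r - x * (exp r - 1)) ≤ 1 / 2 + -(β * r) := by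
      rw [hre, hβ]
      have h7 : x * (r + r ^ 2 / 2) ≤ x * (exp r - 1) := by
        apply mul_le_mul_of_nonneg_left _ hx.le; linarith
      nlinarith [sq_nonneg (sqrt x * r - 1)]
    calc (exp r - 1) * exp (α.re * r - x * (exp r - 1)) ≤
        (r * exp r) * exp (α.re * r - x * (exp r - 1)) := by gcongr
      _ = r * exp (r + (α.re * r - x * (exp r - 1))) := by rw [exp_add r]; ring
      _ ≤ r * exp (1 / 2 + -(β * r)) := by gcongr
      _ = _ := by rw [exp_add]; ring
  have h8 := norm_integral_le_of_norm_le (hint.const_mul (exp (1 / 2)))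
    ((ae_restrict_iff' measurableSet_Ioi).2 (Eventually.of_forall hpt))
  rw [q']
  refine h8.trans (le_of_eq ?_)
  rw [integral_const_mul]
  have h9 : ∫ r in Ioi (0 : ℝ), r * exp (-(β * r)) = (1 / β) ^ 2 := by
    have e1 : ∫ r in Ioi (0 : ℝ), r * exp (-(β * r)) =
        ∫ r in Ioi (0 : ℝ), r ^ ((2 : ℝ) - 1) * exp (-(β * r)) := by
      apply setIntegral_congr_fun measurableSet_Ioi
      intro r hr
      norm_num
    rw [e1, key, Real.Gamma_two, mul_one]
    norm_num
  rw [h9]
  field_simp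

theorem K_left {x : ℝ} (hx : 0 < x) {α : ℂ} (hα : 0 < α.re) (T : ℝ) :
    ‖∫ r in Iic (-T), K x α r‖ ≤ exp (x - α.re * T) / α.re := by
  have hint := integrableOn_exp_mul_Iic hα (-T)
  have hpt : ∀ r ∈ Iic (-T), ‖K x α r‖ ≤ exp x * exp (α.re * r) := by
    intro r hr
    rw [norm_K, ← exp_add]
    apply exp_le_exp.2
    have := exp_pos r
    nlinarith
  have h8 := norm_integral_le_of_norm_le (hint.const_mul (exp x))
    ((ae_restrict_iff' measurableSet_Iic).2 (Eventually.of_forall hpt))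
  refine h8.trans (le_of_eq ?_)
  rw [integral_const_mul, integral_exp_mul_Iic hα, ← mul_div_assoc, ← exp_add]
  congr 2
  ring

end Pool.Agent.Helper62.XiB
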