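import Pool.Agent.Helper62.XiB.Fin
import Pool.Agent.Helper14.Stir.ComplexStirling

/-! Non-real zeros for large truncation, unconditional. -/

namespace Pool.Agent.Helper62.XiB

open Pool.Agent.Helper67.Xi

/-- If `e^{4R} ≥ 10` then the truncated transform has a non-real zero. -/
theorem large_R (R : ℝ) (hR : 10 ≤ Real.exp (4 * R)) : ∃ z : ℂ, H R z = 0 ∧ z.im ≠ 0 :=
  large_R_of Pool.Agent.Helper14.Stir.stirling_complex R hR

end Pool.Agent.Helper62.XiB
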