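import Pool.Agent.Helper67.XiEng2

/-! Numerical facts about the centre of the disc, by ball arithmetic. -/

namespace Pool.Agent.Helper62.XiB

open Pool.Agent.Helper67.Xi

/-- Horner evaluation of `∑ b^k / d_k` -/
def hev : List ℕ → CB → CB
  | [], _ => ⟨0, 0, 0⟩
  | d :: l, b => ((CB.ofInt 1).divNat d).add (b.mul (hev l b))

/-- complex version -/
noncomputable def hevC : List ℕ → ℂ → ℂ
  | [], _ => 0
  | d :: l, b => 1 / (d : ℂ) + b * hevC l b

theorem mem_zero' : CB.mem 0 ⟨0, 0, 0⟩ := by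
  unfold CB.mem; simp [CB.ctr]

theorem mem_hev {z : ℂ} {b : CB} (hz : CB.mem z b) : ∀ (l : List ℕ), (∀ d ∈ l, 0 < d) →
    CB.mem (hevC l z) (hev l b) := by
  intro l
  induction l with
  | nil => intro _; simpa [hevC, hev] using mem_zero'
  | cons d l ih =>
    intro h
    have h1 := ih (fun e he => h e (List.mem_cons_of_mem _ he))
    have h2 : CB.mem (1 / (d : ℂ)) ((CB.ofInt 1).divNat d) := by
      have := mem_divNat d (h d List.mem_cons_self) (mem_ofInt 1)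
      simpa using this
    exact mem_add h2 (mem_mul hz h1)

/-- denominators of the series of `((1 - b) log (1 - b) + b) / b ^ 2` -/
def s12 : List ℕ := [2, 6, 12, 20, 30, 42, 56, 72, 90, 110, 132, 12]
/-- denominators of the series of `-log (1 - b) / b` -/
def l12 : List ℕ := [1, 2, 3, 4, 5, 6, 7, 8, 9, 10, 11, 12]

def eB (j : ℕ) : CB := ⟨((2 * j + 1) * SC / 2000 : ℕ), 0, SC / 2000 + 2⟩
def C0 : CB := (⟨1892 * SC, 2803 * SC, 0⟩ : CB).divNat 1000
def C1 : CB := (⟨1505 * SC, -(1744 * SC), 0⟩ : CB).divNat 1000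
def S2 : CB := ⟨2506628274500000000000017, 0, 1000000000000000⟩

def cB (j : ℕ) : CB := C0.add (C1.mul (eB j))
def bB (j : ℕ) : CB := (cB j).mul (eB j)
def zB (c b : CB) : CB := ((c.mul c).mul (hev s12 b)).sub ((b.mul (hev l12 b)).divNat 2)
def wB (c z : CB) : CB := ((c.mul S2).mul (CB.exp 3 ⟨z.re, z.im, 0⟩)).sub (CB.ofInt 1)
def dB (e c b : CB) : CB :=
  (c.mul (hev l12 b)).add (c.inv.sub ((e.divNat 2).mul ((CB.ofInt 1).sub b).inv))

def chk (e c b : CB) : Bool :=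
  CB.expOk 3 ⟨(zB c b).re, (zB c b).im, 0⟩ && decide ((zB c b).rad * 1000 ≤ 31 * SC) &&
  decide (((wB c (zB c b)).n1 + (wB c (zB c b)).rad) * 1000 ≤ 24 * SC) &&
  decide (c.rad < c.low) && decide (((CB.ofInt 1).sub b).rad < ((CB.ofInt 1).sub b).low) &&
  decide (32710 * SC + (dB e c b).rad * 10000 ≤ (dB e c b).low * 10000)

def chkAll : ℕ → Bool
  | 0 => true
  | n + 1 => chk (eB n) (cB n) (bB n) && chkAll n

theorem chkAll_spec : ∀ n : ℕ, chkAll n = true → ∀ j : ℕ, j < n → chk (eB j) (cB j) (bB j) = true := by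
  intro n
  induction n with
  | zero => intro _ j hj; omega
  | succ n ih =>
    intro h j hj
    rw [chkAll, Bool.and_eq_true] at h
    rcases Nat.lt_or_ge j n with h1 | h1
    · exact ih h.2 j h1
    · have : j = n := by omega
      subst this; exact h.1

theorem chkAll_true : chkAll 179 = true := by decide +kernel

/-- the centre of the disc -/
noncomputable def cc (e : ℝ) : ℂ :=
  ((1892 / 1000 : ℝ) + (2803 / 1000 : ℝ) * Complex.I) +
    ((1505 / 1000 : ℝ) - (1744 / 1000 : ℝ) * Complex.I) * (e : ℂ)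

/-- the exponent -/
noncomputable def ZZ (e : ℝ) : ℂ :=
  cc e ^ 2 * hevC s12 (cc e * e) - cc e * e * hevC l12 (cc e * e) / 2

theorem SC_val : (SC : ℝ) = 1000000000000000000000007 := by norm_num [SC]

theorem mem_C0 : CB.mem ((1892 / 1000 : ℝ) + (2803 / 1000 : ℝ) * Complex.I) C0 := by
  have h : CB.mem (1892 + 2803 * Complex.I) (⟨1892 * SC, 2803 * SC, 0⟩ : CB) := by
    unfold CB.mem CB.ctr
    simp only
    have : (1892 + 2803 * Complex.I) * (SC : ℂ) -
        (((1892 * SC : ℤ) : ℂ) + ((2803 * SC : ℤ) : ℂ) * Complex.I) = 0 := by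
      push_cast; ring
    rw [this]; simp
  have h2 := mem_divNat 1000 (by norm_num) h
  rw [C0]
  convert h2 using 1
  push_cast; ring

theorem mem_C1 : CB.mem ((1505 / 1000 : ℝ) - (1744 / 1000 : ℝ) * Complex.I) C1 := by
  have h : CB.mem (1505 - 1744 * Complex.I) (⟨1505 * SC, -(1744 * SC), 0⟩ : CB) := by
    unfold CB.mem CB.ctr
    simp only
    have : (1505 - 1744 * Complex.I) * (SC : ℂ) -
        (((1505 * SC : ℤ) : ℂ) + ((-(1744 * SC) : ℤ) : ℂ) * Complex.I) = 0 := by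
      push_cast; ring
    rw [this]; simp
  have h2 := mem_divNat 1000 (by norm_num) h
  rw [C1]
  convert h2 using 1
  push_cast; ring

theorem mem_S2 : CB.mem ((Real.sqrt (2 * Real.pi) : ℝ) : ℂ) S2 := by
  have h1 : (2.506628274 : ℝ) ≤ Real.sqrt (2 * Real.pi) := by
    apply Real.le_sqrt_of_sq_le
    have := Real.pi_gt_d20
    norm_num at this ⊢
    linarith
  have h2 : Real.sqrt (2 * Real.pi) ≤ 2.506628275 := by
    apply Real.sqrt_le_iff.2
    refine ⟨by norm_num, ?_⟩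
    have := Real.pi_lt_d20
    norm_num at this ⊢
    linarith
  unfold CB.mem CB.ctr S2
  simp only
  have h3 : ((Real.sqrt (2 * Real.pi) : ℝ) : ℂ) * (SC : ℂ) -
      (((2506628274500000000000017 : ℤ) : ℂ) + ((0 : ℤ) : ℂ) * Complex.I) =
      ((Real.sqrt (2 * Real.pi) * (SC : ℝ) - 2506628274500000000000017 : ℝ) : ℂ) := by
    push_cast; ring
  rw [h3, Complex.norm_real, Real.norm_eq_abs, SC_val, abs_le]
  push_cast
  constructor <;> nlinarith

theorem mem_eB (j : ℕ) {e : ℝ} (h1 : (j : ℝ) / 1000 ≤ e) (h2 : e ≤ ((j : ℝ) + 1) / 1000) :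
    CB.mem (e : ℂ) (eB j) := by
  have hSC : 0 < SC := by norm_num [SC]
  have hS := SC_pos
  have a1 : (((2 * j + 1) * SC : ℕ) : ℝ) / (2000 : ℕ) ≤ (((2 * j + 1) * SC / 2000 : ℕ) : ℝ) + 1 :=
    nat_div_ceil _ _ (by norm_num)
  have a2 : (((2 * j + 1) * SC / 2000 : ℕ) : ℝ) ≤ (((2 * j + 1) * SC : ℕ) : ℝ) / (2000 : ℕ) :=
    Nat.cast_div_le
  have a3 : ((SC : ℕ) : ℝ) / (2000 : ℕ) ≤ ((SC / 2000 : ℕ) : ℝ) + 1 :=
    nat_div_ceil _ _ (by norm_num)
  unfold CB.mem CB.ctr eB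
  simp only
  set q : ℕ := (2 * j + 1) * SC / 2000 with hq
  have h3 : (e : ℂ) * (SC : ℂ) - (((q : ℤ) : ℂ) + ((0 : ℤ) : ℂ) * Complex.I) =
      ((e * (SC : ℝ) - q : ℝ) : ℂ) := by
    push_cast; ring
  rw [h3, Complex.norm_real, Real.norm_eq_abs, abs_le]
  push_cast at a1 a2 a3 ⊢
  constructor <;> nlinarith

theorem ball_split {z : ℂ} {b : CB} (h : CB.mem z b) :
    ∃ w : ℂ, CB.mem w ⟨b.re, b.im, 0⟩ ∧ ‖z - w‖ * SC ≤ b.rad := by
  have hS := SC_pos
  have hSc : (SC : ℂ) ≠ 0 := by exact_mod_cast hS.ne'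
  refine ⟨b.ctr / SC, ?_, ?_⟩
  · unfold CB.mem
    simp only [CB.ctr]
    rw [div_mul_cancel₀ _ hSc]; simp
  · unfold CB.mem at h
    have h1 : (z - b.ctr / SC) * (SC : ℂ) = z * SC - b.ctr := by
      rw [sub_mul, div_mul_cancel₀ _ hSc]
    have h2 : ‖z - b.ctr / SC‖ * (SC : ℝ) = ‖(z - b.ctr / SC) * (SC : ℂ)‖ := by
      rw [norm_mul, Complex.norm_natCast]
    rw [h2, h1]; exact h

theorem num_facts {e : ℝ} (h0 : 0 ≤ e) (h1 : e ≤ 1785 / 10000) :
    (∃ w : ℂ, ‖ZZ e - w‖ ≤ 31 / 1000 ∧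
      ‖cc e * ((Real.sqrt (2 * Real.pi) : ℝ) : ℂ) * Complex.exp w - 1‖ ≤ 24 / 1000) ∧
    32710 / 10000 ≤ ‖cc e * hevC l12 (cc e * e) + ((cc e)⁻¹ - (e : ℂ) / 2 * (1 - cc e * e)⁻¹)‖ := by
  have hS := SC_pos
  obtain ⟨j, hj, hj1, hj2⟩ : ∃ j : ℕ, j < 179 ∧ (j : ℝ) / 1000 ≤ e ∧ e ≤ ((j : ℝ) + 1) / 1000 := by
    refine ⟨⌊e * 1000⌋₊, ?_, ?_, ?_⟩
    · rw [Nat.floor_lt (by positivity)]; push_cast; linarith
    · have := Nat.floor_le (a := e * 1000) (by positivity)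
      linarith
    · have := (Nat.lt_floor_add_one (e * 1000)).le
      linarith
  have hc := chkAll_spec 179 chkAll_true j hj
  simp only [chk, Bool.and_eq_true, decide_eq_true_eq] at hc
  obtain ⟨⟨⟨⟨⟨k1, k2⟩, k3⟩, k4⟩, k5⟩, k6⟩ := hc
  have me := mem_eB j hj1 hj2
  have mc : CB.mem (cc e) (cB j) := mem_add mem_C0 (mem_mul mem_C1 me)
  have mb : CB.mem (cc e * e) (bB j) := mem_mul mc me
  have ms := mem_hev mb s12 (by decide)
  have ml := mem_hev mb l12 (by decide)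
  have mz : CB.mem (ZZ e) (zB (cB j) (bB j)) := by
    have := mem_sub (mem_mul (mem_mul mc mc) ms) (mem_divNat 2 (by norm_num) (mem_mul mb ml))
    rw [zB]
    convert this using 1
    rw [ZZ]; push_cast; ring
  obtain ⟨w, hw, hwz⟩ := ball_split mz
  have mexp := mem_exp 3 k1 hw
  have mW : CB.mem (cc e * ((Real.sqrt (2 * Real.pi) : ℝ) : ℂ) * Complex.exp w - 1)
      (wB (cB j) (zB (cB j) (bB j))) := by
    have h1 : CB.mem (1 : ℂ) (CB.ofInt 1) := by simpa using mem_ofInt 1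
    exact mem_sub (mem_mul (mem_mul mc mem_S2) mexp) h1
  refine ⟨⟨w, ?_, ?_⟩, ?_⟩
  · have k2' : ((zB (cB j) (bB j)).rad : ℝ) * 1000 ≤ 31 * SC := by exact_mod_cast k2
    have : ‖ZZ e - w‖ * SC ≤ 31 / 1000 * SC := by linarith
    exact le_of_mul_le_mul_right this hS
  · have k3' : (((wB (cB j) (zB (cB j) (bB j))).n1 : ℝ) + (wB (cB j) (zB (cB j) (bB j))).rad) * 1000
        ≤ 24 * SC := by exact_mod_cast k3
    have h2 := norm_le_of_mem mW
    rw [norm_mul, Complex.norm_natCast] at h2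
    have : ‖cc e * ((Real.sqrt (2 * Real.pi) : ℝ) : ℂ) * Complex.exp w - 1‖ * SC ≤
        24 / 1000 * SC := by linarith
    exact le_of_mul_le_mul_right this hS
  · have h1 : CB.mem (1 : ℂ) (CB.ofInt 1) := by simpa using mem_ofInt 1
    have mD : CB.mem (cc e * hevC l12 (cc e * e) + ((cc e)⁻¹ - (e : ℂ) / 2 * (1 - cc e * e)⁻¹))
        (dB (eB j) (cB j) (bB j)) := by
      have := mem_add (mem_mul mc ml) (mem_sub (mem_inv k4 mc)
        (mem_mul (mem_divNat 2 (by norm_num) me) (mem_inv k5 (mem_sub h1 mb))))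
      rw [dB]
      convert this using 1
      push_cast; rfl
    have k6' : (32710 : ℝ) * SC + (dB (eB j) (cB j) (bB j)).rad * 10000 ≤
        (dB (eB j) (cB j) (bB j)).low * 10000 := by exact_mod_cast k6
    have h3 := low_le (dB (eB j) (cB j) (bB j))
    unfold CB.mem at mD
    set D := cc e * hevC l12 (cc e * e) + ((cc e)⁻¹ - (e : ℂ) / 2 * (1 - cc e * e)⁻¹)
    have h4 : ‖(dB (eB j) (cB j) (bB j)).ctr‖ - ‖D * (SC : ℂ)‖ ≤
        ‖D * (SC : ℂ) - (dB (eB j) (cB j) (bB j)).ctr‖ := by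
      have := norm_sub_norm_le (dB (eB j) (cB j) (bB j)).ctr (D * (SC : ℂ))
      rwa [norm_sub_rev] at this
    rw [norm_mul, Complex.norm_natCast] at h4
    have : 32710 / 10000 * (SC : ℝ) ≤ ‖D‖ * SC := by linarith
    exact le_of_mul_le_mul_right this hS

end Pool.Agent.Helper62.XiB
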