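import Pool.Agent.Helper62.XiB.Geo

/-! The logarithm of the main factor. -/

open Set Real

namespace Pool.Agent.Helper62.XiB

/-- relative displacement -/
noncomputable def yy (e : ℝ) (a : ℂ) : ℂ := -((a - cc e) * e / (1 - cc e * e))

/-- logarithm of the main factor, relative to the centre -/
noncomputable def PP (x e : ℝ) (a : ℂ) : ℂ :=
  x * (1 - cc e * e) * ((1 + yy e a) * Complex.log (1 + yy e a) - yy e a +
    yy e a * Complex.log (1 - cc e * e)) + Complex.log (1 + yy e a) / 2 +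
    Complex.log (1 + (a - cc e) / cc e)

theorem vc_ne {e : ℝ} (h0 : 0 ≤ e) (h1 : e ≤ 1785 / 10000) : 1 - cc e * e ≠ 0 := by
  intro h
  have := vc_norm_ge h0 h1
  rw [h, norm_zero] at this
  norm_num at this

theorem va_eq {e : ℝ} (h0 : 0 ≤ e) (h1 : e ≤ 1785 / 10000) (a : ℂ) :
    1 - a * e = (1 - cc e * e) * (1 + yy e a) := by
  have := vc_ne h0 h1
  have h : yy e a * (1 - cc e * e) = -((a - cc e) * e) := by
    rw [yy, neg_mul, div_mul_cancel₀ _ this]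
  linear_combination -h

theorem a_eq {e : ℝ} (h0 : 0 ≤ e) (h1 : e ≤ 1785 / 10000) (a : ℂ) :
    a = cc e * (1 + (a - cc e) / cc e) := by
  have := cc_ne h0 h1
  field_simp; ring

theorem yy_norm {e : ℝ} (h0 : 0 ≤ e) (h1 : e ≤ 1785 / 10000) {a : ℂ} (ha : ‖a - cc e‖ ≤ 1 / 2) :
    ‖yy e a‖ ≤ 1454 / 10000 := by
  rw [yy, norm_neg, norm_div, norm_mul, Complex.norm_real, Real.norm_eq_abs, abs_of_nonneg h0]
  have h2 := vc_norm_ge h0 h1
  rw [div_le_iff₀ (by linarith)]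
  nlinarith [norm_nonneg (a - cc e)]

theorem hc_norm {e : ℝ} (h0 : 0 ≤ e) (h1 : e ≤ 1785 / 10000) {a : ℂ} (ha : ‖a - cc e‖ ≤ 1 / 2) :
    ‖(a - cc e) / cc e‖ ≤ 152 / 1000 := by
  rw [norm_div]
  have h2 := cc_norm_ge h0 h1
  rw [div_le_iff₀ (by linarith)]
  linarith

theorem PP_centre (x e : ℝ) : PP x e (cc e) = 0 := by
  simp [PP, yy]

theorem yy_exact {x e : ℝ} (hxe : x * e ^ 2 = 1) (h0 : 0 < e)
    (h1 : e ≤ 1785 / 10000) {a : ℂ} (ha : ‖a - cc e‖ = 1 / 2) :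
    x * ‖1 - cc e * e‖ * ‖yy e a‖ ^ 2 ≤ 408 / 1000 := by
  have h2 := vc_norm_ge h0.le h1
  have h3 : ‖yy e a‖ * ‖1 - cc e * e‖ = e / 2 := by
    rw [yy, norm_neg, norm_div, norm_mul, Complex.norm_real, Real.norm_eq_abs, abs_of_nonneg h0.le,
      ha, div_mul_cancel₀ _ (by linarith)]
    ring
  have h4 : (x * ‖1 - cc e * e‖ * ‖yy e a‖ ^ 2) * ‖1 - cc e * e‖ = 1 / 4 := by
    have : (x * ‖1 - cc e * e‖ * ‖yy e a‖ ^ 2) * ‖1 - cc e * e‖ =
        x * (‖yy e a‖ * ‖1 - cc e * e‖) ^ 2 := by ring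
    rw [this, h3]
    linear_combination hxe / 4
  by_contra hcon
  push Not at hcon
  nlinarith

theorem PP_lower {x e : ℝ} (hx : 0 < x) (hxe : x * e ^ 2 = 1) (h0 : 0 < e)
    (h1 : e ≤ 1785 / 10000) {a : ℂ} (ha : ‖a - cc e‖ = 1 / 2) :
    1354 / 1000 ≤ ‖PP x e a‖ := by
  have hy := yy_norm h0.le h1 ha.le
  have hh := hc_norm h0.le h1 ha.le
  have hPD := PD_bound h0 h1
  have hex := yy_exact hxe h0 h1 ha
  have hv := vc_ne h0.le h1
  have hc := cc_ne h0.le h1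
  have he0 : (e : ℂ) ≠ 0 := by exact_mod_cast h0.ne'
  have hxe' : (x : ℂ) * (e : ℂ) ^ 2 = 1 := by exact_mod_cast hxe
  set y := yy e a with hydef
  set t := (a - cc e) / cc e with ht
  set v := 1 - cc e * e with hvdef
  have hyv : y * v = -((a - cc e) * e) := by
    rw [hydef, yy, ← hvdef]; field_simp
  set ρ2 := Complex.log (1 + y) - y with hρ2
  set ρ3 := Complex.log (1 + y) - y + y ^ 2 / 2 with hρ3
  have e1 : PP x e a = (a - cc e) * PD e +
      (x * v * (y ^ 2 / 2 - y ^ 3 / 2 + (1 + y) * ρ3) + ρ2 / 2 + (Complex.log (1 + t) - t)) := by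
    rw [PP, PD, ← hvdef, ← hydef, ← ht, hρ2, hρ3]
    have i1 : (a - cc e) * (1 / cc e) = t := by rw [ht]; ring
    have i2 : (a - cc e) * (-Complex.log v / e) = x * v * y * Complex.log v := by
      have : x * v * y * Complex.log v = x * (y * v) * Complex.log v := by ring
      rw [this, hyv]
      field_simp
      linear_combination ((a - cc e) * Complex.log v) * hxe'
    have i3 : (a - cc e) * (e / (2 * v)) = -y / 2 := by
      have : y = -((a - cc e) * e) / v := by rw [← hyv]; field_simp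
      rw [this]; field_simp
    linear_combination -i1 - i2 + i3
  have b1 : ‖(a - cc e) * PD e‖ ≥ 16345 / 10000 := by
    rw [norm_mul, ha]; linarith
  have hy1 : ‖y‖ < 1 := by linarith
  have hyi : (1 - ‖y‖)⁻¹ ≤ 11702 / 10000 := by
    calc (1 - ‖y‖)⁻¹ ≤ (1 - 1454 / 10000)⁻¹ := by
          apply inv_anti₀ (by norm_num); linarith
      _ ≤ _ := by norm_num
  have hyi0 : 0 ≤ (1 - ‖y‖)⁻¹ := by apply inv_nonneg.2; linarith
  have b2 : ‖ρ2‖ ≤ 125 / 10000 := by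
    have := Complex.norm_log_one_add_sub_self_le hy1
    refine this.trans ?_
    calc ‖y‖ ^ 2 * (1 - ‖y‖)⁻¹ / 2 ≤ (1454 / 10000) ^ 2 * (11702 / 10000) / 2 := by gcongr
      _ ≤ _ := by norm_num
  have b3 : ‖ρ3‖ ≤ ‖y‖ ^ 2 * (568 / 10000) := by
    have h5 := Complex.norm_log_sub_logTaylor_le 2 hy1
    have h6 : Complex.logTaylor 3 y = y - y ^ 2 / 2 := by
      simp only [Complex.logTaylor, Finset.sum_range_succ, Finset.sum_range_zero]
      push_cast; ring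
    rw [h6] at h5
    have h7 : Complex.log (1 + y) - (y - y ^ 2 / 2) = ρ3 := by rw [hρ3]; ring
    rw [h7] at h5
    refine h5.trans ?_
    have h8 : ‖y‖ ^ (2 + 1) * (1 - ‖y‖)⁻¹ / (((2 : ℕ) : ℝ) + 1) =
        ‖y‖ ^ 2 * (‖y‖ * (1 - ‖y‖)⁻¹ / 3) := by push_cast; ring
    rw [h8]
    have h9 : ‖y‖ * (1 - ‖y‖)⁻¹ / 3 ≤ 568 / 10000 := by
      calc ‖y‖ * (1 - ‖y‖)⁻¹ / 3 ≤ (1454 / 10000) * (11702 / 10000) / 3 := by gcongr
        _ ≤ _ := by norm_num
    gcongr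
  have b4 : ‖y ^ 2 / 2 - y ^ 3 / 2 + (1 + y) * ρ3‖ ≤ ‖y‖ ^ 2 * (638 / 1000) := by
    have c1 : ‖y ^ 2 / 2‖ = ‖y‖ ^ 2 * (1 / 2) := by rw [norm_div, norm_pow]; simp; ring
    have c2 : ‖y ^ 3 / 2‖ ≤ ‖y‖ ^ 2 * (727 / 10000) := by
      rw [norm_div, norm_pow]
      simp only [Complex.norm_ofNat]
      have : ‖y‖ ^ 3 = ‖y‖ ^ 2 * ‖y‖ := by ring
      rw [this]
      nlinarith [sq_nonneg ‖y‖]
    have c3 : ‖(1 + y) * ρ3‖ ≤ (11454 / 10000) * (‖y‖ ^ 2 * (568 / 10000)) := by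
      rw [norm_mul]
      have : ‖1 + y‖ ≤ 11454 / 10000 := by
        refine (norm_add_le _ _).trans ?_
        rw [norm_one]; linarith
      gcongr
    have c4 := norm_add_le (y ^ 2 / 2 - y ^ 3 / 2) ((1 + y) * ρ3)
    have c5 := norm_sub_le (y ^ 2 / 2) (y ^ 3 / 2)
    nlinarith [sq_nonneg ‖y‖]
  have b5 : ‖x * v * (y ^ 2 / 2 - y ^ 3 / 2 + (1 + y) * ρ3)‖ ≤ 2604 / 10000 := by
    rw [norm_mul, norm_mul, Complex.norm_real, Real.norm_eq_abs, abs_of_pos hx]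
    calc x * ‖v‖ * ‖y ^ 2 / 2 - y ^ 3 / 2 + (1 + y) * ρ3‖ ≤
        x * ‖v‖ * (‖y‖ ^ 2 * (638 / 1000)) := by gcongr
      _ = (x * ‖v‖ * ‖y‖ ^ 2) * (638 / 1000) := by ring
      _ ≤ (408 / 1000) * (638 / 1000) := by gcongr
      _ ≤ _ := by norm_num
  have b6 : ‖Complex.log (1 + t) - t‖ ≤ 137 / 10000 := by
    have ht1 : ‖t‖ < 1 := by linarith
    refine (Complex.norm_log_one_add_sub_self_le ht1).trans ?_
    have hti : (1 - ‖t‖)⁻¹ ≤ 118 / 100 := by
      calc (1 - ‖t‖)⁻¹ ≤ (1 - 152 / 1000)⁻¹ := by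
            apply inv_anti₀ (by norm_num); linarith
        _ ≤ _ := by norm_num
    have hti0 : 0 ≤ (1 - ‖t‖)⁻¹ := by apply inv_nonneg.2; linarith
    calc ‖t‖ ^ 2 * (1 - ‖t‖)⁻¹ / 2 ≤ (152 / 1000) ^ 2 * (118 / 100) / 2 := by gcongr
      _ ≤ _ := by norm_num
  have b7 : ‖ρ2 / 2‖ ≤ 63 / 10000 := by
    rw [norm_div]; simp only [Complex.norm_ofNat]; linarith
  set A := x * v * (y ^ 2 / 2 - y ^ 3 / 2 + (1 + y) * ρ3)
  set B := ρ2 / 2
  set C := Complex.log (1 + t) - t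
  have b8 : ‖A + B + C‖ ≤ 2604 / 10000 + 63 / 10000 + 137 / 10000 := by
    refine (norm_add₃_le).trans ?_
    linarith
  have b9 := norm_sub_norm_le ((a - cc e) * PD e) (-(A + B + C))
  rw [norm_neg, sub_neg_eq_add] at b9
  rw [e1]
  linarith

/-- exponential of `PP` -/
theorem exp_PP {x e : ℝ} (h0 : 0 < e)
    (h1 : e ≤ 1785 / 10000) {a : ℂ} (ha : ‖a - cc e‖ ≤ 1 / 2) :
    Complex.exp (PP x e a + Complex.log (WW x e)) = a * ((Real.sqrt (2 * π) : ℝ) : ℂ) *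
      Complex.exp (x * ((1 - a * e) * Complex.log (1 - a * e) - (1 - a * e) + 1) +
        Complex.log (1 - a * e) / 2) := by
  have hy := yy_norm h0.le h1 ha
  have hh := hc_norm h0.le h1 ha
  have hlog : Complex.log (1 - a * e) = Complex.log (1 - cc e * e) + Complex.log (1 + yy e a) := by
    rw [va_eq h0.le h1 a]
    exact log_mul_right (by linarith [vc_re h0.le h1]) (one_add_re (by linarith))
  have hne : 1 + (a - cc e) / cc e ≠ 0 := by
    have := one_add_re (y := (a - cc e) / cc e) (by linarith)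
    intro h; rw [h] at this; simp at this
  rw [Complex.exp_add, Complex.exp_log (WW_ne h0 h1), PP, Complex.exp_add, Complex.exp_add,
    Complex.exp_log hne, WW, hlog, va_eq h0.le h1 a]
  set E1 := Complex.exp (x * (1 - cc e * e) * ((1 + yy e a) * Complex.log (1 + yy e a) - yy e a +
    yy e a * Complex.log (1 - cc e * e))) with hE1
  set E2 := Complex.exp (Complex.log (1 + yy e a) / 2) with hE2
  have h3 : Complex.exp (x * ((1 - cc e * e) * (1 + yy e a) *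
      (Complex.log (1 - cc e * e) + Complex.log (1 + yy e a)) - (1 - cc e * e) * (1 + yy e a) + 1) +
      (Complex.log (1 - cc e * e) + Complex.log (1 + yy e a)) / 2) =
      E1 * E2 * Complex.exp (Z' x e) := by
    rw [hE1, hE2, ← Complex.exp_add, ← Complex.exp_add, Z']
    congr 1; ring
  rw [h3]
  have h4 := a_eq h0.le h1 a
  linear_combination (-(((Real.sqrt (2 * π) : ℝ) : ℂ) * (E1 * E2 * Complex.exp (Z' x e)))) * h4

end Pool.Agent.Helper62.XiB
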